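import Pool.Agent.Helper2.PN.Final
import Pool.Agent.Helper14.AT.Fin

/-!
Project AT (MP_b8862a_ag), primes: no prime larger than seven is in the exceptional sets.
-/

set_option linter.unusedSectionVars false

open scoped RealInnerProductSpace
open Module PF TF PW

namespace AT

section euclid

variable {E : Type*} [NormedAddCommGroup E] [InnerProductSpace ℝ E] {Φ X : Finset E}

theorem sat_of2 (h : Sat Φ X) : Sat' Φ X where
  nonempty := h.nonempty
  int := h.int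
  str := h.str
  coset := h.coset
  span := by
    intro x hx
    have h1 := closure_span3 (h.coset x hx (-x) (h.neg x hx))
    rw [sub_neg_eq_add] at h1
    have h2 := Submodule.smul_mem _ (2 : ℝ)⁻¹ h1
    rwa [← two_smul ℝ x, smul_smul, inv_mul_cancel₀ (by norm_num), one_smul] at h2

/-- the weights of the standard module of type `A` are not symmetric -/
theorem not_typeS2 (hX : ∀ x ∈ X, -x ∈ X) : ¬ TypeS Φ X := by
  rintro ⟨m, u, c, hm, hc, h1, -, h3⟩
  have hmR : (3 : ℝ) ≤ m := by exact_mod_cast hm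
  have hm0 : (0 : ℝ) < m := by linarith
  obtain ⟨j, hj⟩ := (h3 _).1 (hX (u ⟨0, by omega⟩) ((h3 _).2 ⟨_, rfl⟩))
  have h4 := h1 ⟨0, by omega⟩ ⟨0, by omega⟩
  have h5 := h1 ⟨0, by omega⟩ j
  rw [if_pos rfl] at h4
  rw [← hj, inner_neg_right, h4] at h5
  have h6 : (1 : ℝ) / m ≤ 1 / 3 := one_div_le_one_div_of_le (by norm_num) hmR
  by_cases h0 : (⟨0, by omega⟩ : Fin m) = j
  · rw [if_pos h0] at h5
    have h7 : c * (1 - 1 / (m : ℝ)) = 0 := by linarith
    rcases mul_eq_zero.1 h7 with h8 | h8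
    · exact hc.ne' h8
    · linarith
  · rw [if_neg h0] at h5
    have h7 : c * (1 - 2 * (1 / (m : ℝ))) = 0 := by linarith
    rcases mul_eq_zero.1 h7 with h8 | h8
    · exact hc.ne' h8
    · linarith

end euclid

theorem ex3_prime2 {p : ℕ} (hp : p.Prime) (h7 : 7 < p) : p ∉ PX.Ex3 := by
  rintro ⟨ι, hι, Φ, X, l, v, h, hA, hB, -⟩
  obtain ⟨a, ha, x, hx, hb⟩ := h.prime p hp dvd_rfl
  rcases prime_comb2 h.rs (sat_of2 h.sat) ⟨l, h.l_mem, h.l_ne⟩ hp h7 h.card_le ha hx hb with h1 | h1 | h1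
  · exact hA h1
  · exact not_typeS2 h.sat.neg h1
  · exact hB h1

theorem ex4_prime2 {p : ℕ} (hp : p.Prime) (h7 : 7 < p) : p ∉ Ex4 := by
  rintro ⟨ι, hι, Φ, X, l, v, h, hns, hA, hS⟩
  obtain ⟨a, ha, x, hx, hb⟩ := h.prime p hp dvd_rfl
  rcases prime_comb2 h.rs h.sat ⟨l, h.l_mem, h.l_ne⟩ hp h7 h.card_le ha hx hb with h1 | h1 | h1
  · exact hA h1
  · exact hS h1
  · obtain ⟨N, y, -, c, -, hXB, -⟩ := h1
    obtain ⟨z, hz, hz'⟩ := hns
    apply hz'
    rw [hXB] at hz ⊢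
    rcases hz with rfl | ⟨i, hz | hz⟩
    · exact Or.inl neg_zero
    · exact Or.inr ⟨i, Or.inr (by rw [hz])⟩
    · exact Or.inr ⟨i, Or.inl (by rw [hz, neg_neg])⟩

end AT

namespace MH

/-- no prime larger than seven is exceptional -/
theorem prime_dim2 {p : ℕ} (hp : p.Prime) (h7 : 7 < p) : p ∉ ExDim3 ∧ p ∉ ExDim4 := by
  have h3 : p ∉ ExDim3 := by
    rintro (h | h | ⟨d, k, hk, h⟩)
    · exact AT.ex3_prime2 hp h7 h
    · have h1 : p < 9 := h
      have h2 : p = 8 := by omega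
      rw [h2] at hp
      exact absurd hp (by decide)
    · rw [h] at hp
      exact Nat.Prime.not_prime_pow hk hp
  refine ⟨h3, ?_⟩
  rintro (h | h)
  · exact h3 h
  · exact AT.ex4_prime2 hp h7 h

end MH
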