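import Pool.Agent.Helper43.L2.Final
import Pool.Agent.Helper2.PN.Ex

/-!
Project AT (MP_b8862a_ag), primes: the conditions for a block of prime rank.
-/

set_option linter.unusedSectionVars false

open Matrix Module GH

namespace MH

/-- the sum of the coefficients of a product -/
theorem sum_conv2 {S : Finset ℤ} {v : ℤ → ℕ} {f g : ℤ →₀ ℕ} (hv : ∀ p, v p = f.sum fun i x => x * g (p - i))
    (hS : ∀ p, p ∉ S → v p = 0) : ∑ p ∈ S, v p = (f.sum fun _ x => x) * (g.sum fun _ x => x) := by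
  classical
  set T : Finset ℤ := S ∪ (f.support ×ˢ g.support).image (fun q => q.1 + q.2) with hT
  have h1 : ∑ p ∈ S, v p = ∑ p ∈ T, v p :=
    Finset.sum_subset Finset.subset_union_left fun p _ hp => hS p hp
  rw [h1]
  simp only [hv, Finsupp.sum]
  rw [Finset.sum_comm, Finset.sum_mul]
  refine Finset.sum_congr rfl fun i hi => ?_
  rw [← Finset.mul_sum]
  congr 1
  symm
  refine Finset.sum_of_injOn (fun j => i + j) (fun a _ b _ h => add_left_cancel h) ?_ ?_ ?_
  · intro j hj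
    exact Finset.mem_coe.2 (Finset.mem_union_right _ (Finset.mem_image.2 ⟨(i, j), Finset.mem_product.2
      ⟨hi, hj⟩, rfl⟩))
  · intro p _ hp
    by_contra h2
    exact hp ⟨p - i, Finset.mem_coe.2 (Finsupp.mem_support_iff.2 h2), by simp⟩
  · intro j _
    simp

theorem card_of_sum_one2 {g : ℤ →₀ ℕ} (h : (g.sum fun _ x => x) = 1) : g.support.card ≤ 1 := by
  have h1 : g.support.card ≤ ∑ i ∈ g.support, g i := by
    rw [Finset.card_eq_sum_ones]
    exact Finset.sum_le_sum fun i hi => Nat.one_le_iff_ne_zero.2 (Finsupp.mem_support_iff.1 hi)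
  exact h1.trans (le_of_eq h)

variable {n : Type*} [Fintype n] [DecidableEq n]
variable {w : ℤ} {Q : Matrix n n ℚ} {S : Finset ℤ} {P : ℤ → Matrix n n ℂ}

/-- **Blocks of prime rank** `r > 7`: it suffices that a conjugate has a Hodge number `h` with `1 < h < r`. -/
theorem okL_of_prime (H : IsHW w Q S P) {e : Matrix n n ℂ} (he : IsBlk P e) (hr : e.rank.Prime) (h7 : 7 < e.rank)
    {σ : ℂ ≃+* ℂ} {p : ℤ} (h1 : 1 < (e.map σ * P p).rank) (h2 : (e.map σ * P p).rank < e.rank) :
    OkL ExDim3 ExDim4 w Q S P e := by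
  have hS : ∀ (τ : ℂ ≃+* ℂ) p, p ∉ S → (e.map τ * P p).rank = 0 := fun τ p hp => H.supp_blk14 _ p hp
  have hs : ∀ τ : ℂ ≃+* ℂ, ∑ p ∈ S, (e.map τ * P p).rank = e.rank := fun τ => by
    rw [H.sum_blk14 (he.aut τ), rank_aut _ he.idem]
  refine Or.inr ⟨σ, Or.inl ?_, Or.inr (Or.inl ⟨Or.inr ⟨(prime_dim2 hr h7).2, ?_⟩, ?_⟩)⟩
  · intro τ f g hv hd
    have h3 : (g.sum fun _ x => x) ∣ e.rank := by
      rw [← hs σ]
      exact Finset.dvd_sum fun p _ => hd p
    rcases (Nat.dvd_prime hr).1 h3 with h4 | h4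
    · exact card_of_sum_one2 h4
    · exfalso
      have h5 : e.rank ∣ (e.map σ * P p).rank := h4 ▸ hd p
      have := Nat.le_of_dvd (by omega) h5
      omega
  · intro f g hv
    have h3 := sum_conv2 hv (hS σ)
    rw [hs σ] at h3
    rcases (Nat.dvd_prime hr).1 (Dvd.intro _ h3.symm) with h4 | h4
    · exact Or.inl (card_of_sum_one2 h4)
    · right
      refine card_of_sum_one2 ?_
      rw [h4] at h3
      exact Nat.eq_of_mul_eq_mul_left hr.pos (by omega)
  · rintro ⟨p₀, d, h3⟩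
    have h4 : (e.map σ * P p).rank ≤ 1 := (h3 p).1
    omega

end MH
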