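import Pool.Agent.Helper2.PN.Rank1

/-!
Project AT (MP_b8862a_ag): the dimensions of the non-standard irreducible modules of simple Lie algebras of dimension larger
than three lie in the exceptional sets; the simple Lie algebras of dimension three.
-/

set_option linter.unusedSectionVars false

open Module LieModule LieAlgebra LieAlgebra.IsKilling AddMonoidAlgebra MTP.MF PF PF.W PF.L TF PW PX
open Pool.Agent.Helper54.MT (semisimple_of_diag exists_cartan_end killing_of)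

attribute [local instance 100] LieRing.ofAssociativeRing

namespace AT

variable {V : Type} [AddCommGroup V] [Module ℂ V] [FiniteDimensional ℂ V] {L : LieSubalgebra ℂ (Module.End ℂ V)}

theorem nontriv2 [IsSimple ℂ L] : Nontrivial V := by
  by_contra hcon
  rw [not_nontrivial_iff_subsingleton] at hcon
  have h1 : ∀ x y : L, x = y := fun x y => Subtype.ext (by ext u; exact Subsingleton.elim _ _)
  apply LieAlgebra.IsSimple.non_abelian ℂ (L := L)
  exact ⟨fun x y => h1 _ _⟩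

theorem roots_ne2 [IsSimple ℂ L] [IsKilling ℂ L] (H : LieSubalgebra ℂ L) [H.IsCartanSubalgebra] : Nonempty H.root := by
  have hirrR : (rootSystem H).IsIrreducible := inferInstance
  by_contra hcon
  rw [not_nonempty_iff] at hcon
  have hN : Nontrivial H := RootPairing.IsIrreducible.nontrivial' (rootSystem H)
  have h1 : (⊤ : Submodule ℂ H) = ⊥ := by
    have h2 : (rootSystem H).corootSpan ℂ = ⊤ := RootPairing.IsRootSystem.span_coroot_eq_top
    rw [← h2, RootPairing.corootSpan, Set.range_eq_empty, Submodule.span_empty]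
  exact bot_ne_top h1.symm

theorem zero_diag2 : (⨆ c : ℂ, Module.End.eigenspace (0 : Module.End ℂ V) c) = ⊤ := by
  rw [eq_top_iff]
  intro v _
  refine Submodule.mem_iSup_of_mem 0 ?_
  rw [Module.End.mem_eigenspace_iff]
  simp

/-- simple Lie algebras of dimension three -/
theorem prog_of_three2 [IsSimple ℂ L]
    (hirr : ∀ W : Submodule ℂ V, (∀ x ∈ L, ∀ u ∈ W, x u ∈ W) → W = ⊥ ∨ W = ⊤) (h3 : finrank ℂ L ≤ 3) :
    ∀ h ∈ L, h ≠ 0 → (⨆ c : ℂ, Module.End.eigenspace h c) = ⊤ → Prog h := by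
  intro y hy hy0 hdiag
  have hVn : Nontrivial V := nontriv2 (L := L)
  have hk : IsKilling ℂ L := inferInstance
  obtain ⟨H, hH, hyH⟩ := exists_cartan_end (L := L) ⟨y, hy⟩ (semisimple_of_diag hdiag)
  have hne : Nonempty H.root := roots_ne2 H
  have hirr' : ∀ W : Submodule ℂ V, (∀ x : L, ∀ u ∈ W, ⁅x, u⁆ ∈ W) → W = ⊥ ∨ W = ⊤ :=
    fun W hW => hirr W fun z hz w hw => hW ⟨z, hz⟩ w hw
  obtain ⟨m, ⟨B⟩⟩ := exists_WB (V := V) (H := H) hirr'
  have hcard : Fintype.card (Fin m) = finrank ℂ V := by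
    rw [Module.finrank_eq_card_basis B.v]
  have hI : Nonempty (Fin m) := by
    rw [← Fintype.card_pos_iff, hcard]
    exact finrank_pos
  have hy' : (⟨⟨y, hy⟩, hyH⟩ : H) ≠ 0 := by
    intro h
    apply hy0
    have := congrArg (fun z : H => ((z : L) : Module.End ℂ V)) h
    exact this
  exact prog_of_typeA B hirr' (typeA_of_finrank2 hne h3) ⟨⟨y, hy⟩, hyH⟩ hy'

/-- the self-dual modules -/
theorem ex3_of2 {ω : LinearMap.BilinForm ℂ V}
    (hω : ω.IsSymm ∨ ω.IsAlt) (hnd : ω.Nondegenerate) [IsSimple ℂ L]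
    (hirr : ∀ W : Submodule ℂ V, (∀ x ∈ L, ∀ u ∈ W, x u ∈ W) → W = ⊥ ∨ W = ⊤)
    (hsk : ∀ x ∈ L, ∀ u v, ω (x u) v = -ω u (x v)) (h3 : 3 < finrank ℂ L)
    (hfull : ¬ ∀ x : Module.End ℂ V, (∀ u v, ω (x u) v = -ω u (x v)) → x ∈ L) : finrank ℂ V ∈ Ex3 := by
  classical
  by_contra hE
  have hVn : Nontrivial V := nontriv2 (L := L)
  have hS : MTP.IrrSymp ω L.toSubmodule := ⟨fun x hx y hy => L.lie_mem hx hy, fun x hx => hsk x hx, hirr⟩
  have hk : IsKilling ℂ L := killing_of hnd hS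
  obtain ⟨H, hH, hyH⟩ := exists_cartan_end (L := L) 0 (semisimple_of_diag zero_diag2)
  have hne : Nonempty H.root := roots_ne2 H
  have hirr' : ∀ W : Submodule ℂ V, (∀ x : L, ∀ u ∈ W, ⁅x, u⁆ ∈ W) → W = ⊥ ∨ W = ⊤ :=
    fun W hW => hirr W fun z hz w hw => hW ⟨z, hz⟩ w hw
  have hsk' : ∀ (x : L) (u v : V), ω ⁅x, u⁆ v = - ω u ⁅x, v⁆ := by
    intro x u v
    exact hsk x x.2 u v
  have hfaith : ∀ x : L, (∀ u : V, ⁅x, u⁆ = 0) → x = 0 := by
    intro x hx
    apply Subtype.ext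
    ext u
    exact hx u
  obtain ⟨m, ⟨B⟩⟩ := exists_WB (V := V) (H := H) hirr'
  have hcard : Fintype.card (Fin m) = finrank ℂ V := by
    rw [Module.finrank_eq_card_basis B.v]
  have hI : Nonempty (Fin m) := by
    rw [← Fintype.card_pos_iff, hcard]
    exact finrank_pos
  obtain ⟨l, v, hwd⟩ := exists_wd3 B hirr' hfaith hnd hsk'
  rw [hcard] at hwd
  have hA : ¬ TypeA (PF.CC.Ph (rootSystem H)) := by
    intro hA
    rw [← PF.C.PhiS_eq] at hA
    have := finrank_of_typeA2 B hirr' hA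
    omega
  have hBD : TypeB (PF.CC.Ph (rootSystem H)) (PF.CC.Xw B) ∨
      TypeD (PF.CC.Ph (rootSystem H)) (PF.CC.Xw B) := by
    by_contra hcon
    push Not at hcon
    exact hE ⟨H.root, inferInstance, _, _, l, v, hwd, hA, hcon.1, hcon.2⟩
  apply hfull
  intro x hx
  rcases hω with hsymm | halt
  · rcases PF.CC.choose_le B hirr' hnd hsk' hBD with h2 | h2
    · exact absurd h2 hA
    · rw [hcard] at h2
      exact PF.CC.full_of_le hsymm hnd L.toSubmodule (fun z hz => hsk z hz) h2 x hx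
  · rcases hBD with ht | ht
    · exfalso
      obtain ⟨N, y, hy, c, hc, hX, -⟩ := ht
      obtain ⟨i, hi⟩ := (PF.CC.mem_Xw B).1 ((hX 0).2 (Or.inl rfl))
      have h0 : B.w i = 0 := by
        apply PF.C.toE_inj (PF.C.intl_w B i) PF.C.intl_zero
        rw [toE_w, hi, PF.C.toE_zero]
      obtain ⟨b⟩ := RootPairing.nonempty_base (rootSystem H)
      obtain ⟨d, hd, hdodd⟩ := odd_rho B hirr' hnd halt hsk' b
      have h1 := hd i
      rw [h0, LinearMap.zero_apply] at h1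
      have h2 : d i = 0 := by exact_mod_cast h1.symm
      have h3 := hdodd i
      rw [h2] at h3
      exact absurd h3 (by decide)
    · rw [← XS_eq, ← PF.C.PhiS_eq] at ht
      exact PF.C.typeD_sp B hirr' ht hnd halt hsk' hx

/-- all modules -/
theorem ex34_of2 [IsSimple ℂ L]
    (hirr : ∀ W : Submodule ℂ V, (∀ x ∈ L, ∀ u ∈ W, x u ∈ W) → W = ⊥ ∨ W = ⊤) (h3 : 3 < finrank ℂ L)
    (hsl : ¬ ∀ x : Module.End ℂ V, LinearMap.trace ℂ V x = 0 → x ∈ L)
    (hfull : ¬ ∃ ω : LinearMap.BilinForm ℂ V, (ω.IsSymm ∨ ω.IsAlt) ∧ ω.Nondegenerate ∧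
      ∀ x : Module.End ℂ V, x ∈ L ↔ ∀ u v, ω (x u) v = -ω u (x v)) :
    finrank ℂ V ∈ Ex3 ∨ finrank ℂ V ∈ Ex4 := by
  classical
  by_cases hform : ∃ ω : LinearMap.BilinForm ℂ V, (ω.IsSymm ∨ ω.IsAlt) ∧ ω.Nondegenerate ∧
      ∀ x ∈ L, ∀ u v, ω (x u) v = -ω u (x v)
  · obtain ⟨ω, hω, hnd, hsk⟩ := hform
    left
    refine ex3_of2 hω hnd hirr hsk h3 fun h => hfull ⟨ω, hω, hnd, fun x => ⟨fun hx u v => hsk x hx u v, h x⟩⟩
  right
  by_contra hE4
  have hVn : Nontrivial V := nontriv2 (L := L)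
  have hk : IsKilling ℂ L := inferInstance
  obtain ⟨H, hH, hyH⟩ := exists_cartan_end (L := L) 0 (semisimple_of_diag zero_diag2)
  have hne : Nonempty H.root := roots_ne2 H
  have hirr' : ∀ W : Submodule ℂ V, (∀ x : L, ∀ u ∈ W, ⁅x, u⁆ ∈ W) → W = ⊥ ∨ W = ⊤ :=
    fun W hW => hirr W fun z hz w hw => hW ⟨z, hz⟩ w hw
  have hfaith : ∀ x : L, (∀ u : V, ⁅x, u⁆ = 0) → x = 0 := by
    intro x hx
    apply Subtype.ext
    ext u
    exact hx u
  obtain ⟨m, ⟨B⟩⟩ := exists_WB (V := V) (H := H) hirr'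
  have hcard : Fintype.card (Fin m) = finrank ℂ V := by
    rw [Module.finrank_eq_card_basis B.v]
  have hI : Nonempty (Fin m) := by
    rw [← Fintype.card_pos_iff, hcard]
    exact finrank_pos
  obtain ⟨l, v, hwd⟩ := exists_wd' B hirr' hfaith
  rw [hcard] at hwd
  have hneg : ∃ x ∈ PF.CC.Xw B, -x ∉ PF.CC.Xw B := by
    by_contra hcon
    push Not at hcon
    obtain ⟨ω, hω, hnd, hsk⟩ := exists_form B hirr' hcon
    exact hform ⟨ω, hω, hnd, fun x hx u v => hsk ⟨x, hx⟩ u v⟩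
  have hA : ¬ TypeA (PF.CC.Ph (rootSystem H)) := by
    intro hA
    rw [← PF.C.PhiS_eq] at hA
    have := finrank_of_typeA2 B hirr' hA
    omega
  by_cases hS : TypeS (PF.CC.Ph (rootSystem H)) (PF.CC.Xw B)
  · apply hsl
    intro x hx
    obtain ⟨z, hz⟩ := typeS_sl B hirr' hfaith hS x hx
    have : (z : Module.End ℂ V) = x := by
      ext u
      exact hz u
    rw [← this]
    exact z.2
  · exact hE4 ⟨H.root, inferInstance, _, _, l, v, hwd, hneg, hA, hS⟩

end AT
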