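import Pool.Agent.Helper3.AT.Prime2

/-!
Project AT (MP_b8862a_ag), primes: the weights `x - j a`, `x - y` for a weight `x` and a short root `a` with a maximal pairing:
their number is at least `⟨x, a⟩ + qs a`, and the equality case.
-/

set_option linter.unusedSectionVars false

open scoped RealInnerProductSpace
open Module PF TF PW

namespace AT

variable {E : Type*} [NormedAddCommGroup E] [InnerProductSpace ℝ E] {Φ X : Finset E}

/-- reflections preserve the weights -/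
theorem sref2 (hX : Sat' Φ X) {a x : E} (ha : a ∈ Φ) (hna : -a ∈ Φ) (hx : x ∈ X) : x - co a x • a ∈ X := by
  obtain ⟨k, hk⟩ := hX.int a ha x hx
  rcases le_or_gt 0 k with h0 | h0
  · have h2 : ((k.toNat : ℕ) : ℝ) = k := by
      have : ((k.toNat : ℤ) : ℝ) = k := by rw [Int.toNat_of_nonneg h0]
      rw [Int.cast_natCast] at this
      exact this
    have h1 := hX.str a ha x hx k.toNat (by rw [hk, h2])
    rw [h2] at h1
    rw [hk]; exact h1
  · have h3 : ((-k).toNat : ℤ) = -k := Int.toNat_of_nonneg (by omega)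
    have h2 : (((-k).toNat : ℕ) : ℝ) = -k := by
      have : (((-k).toNat : ℤ) : ℝ) = ((-k : ℤ) : ℝ) := by rw [h3]
      rw [Int.cast_natCast] at this
      rw [this]; push_cast; rfl
    have h1 := hX.str (-a) hna x hx (-k).toNat (by rw [co_neg_left, hk, h2])
    rw [h2, smul_neg, neg_smul, neg_neg] at h1
    rw [hk]; exact h1

/-- every root is positive on some weight -/
theorem exists_pos2 (h : RS Φ) (hX : Sat' Φ X) (hne : ∃ x ∈ X, x ≠ 0) {g : E} (hg : g ∈ Φ) :
    ∃ u ∈ X, (0 : ℝ) < ⟪u, g⟫ := by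
  classical
  have hrefl : ∀ a ∈ Φ, ∀ x ∈ X, x - co a x • a ∈ X := fun a ha x hx => sref2 hX ha (h.neg_mem ha) hx
  have hco : ∀ a ∈ Φ, ∀ x : E, ⟪x, a⟫ ≠ (0 : ℝ) → co a x ≠ 0 := by
    intro a ha x hx
    have h1 := (h.inner_pos ha).ne'
    unfold co
    positivity
  have hS := h.irr (Φ.filter fun g => ∃ u ∈ X, ⟪u, g⟫ ≠ (0 : ℝ)) (Finset.filter_subset _ _) ?_ ?_
  · rw [← hS] at hg
    obtain ⟨hg, u, hu, hug⟩ := Finset.mem_filter.1 hg
    rcases lt_or_gt_of_ne hug with h1 | h1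
    · refine ⟨_, hrefl g hg u hu, ?_⟩
      have h2 := (h.inner_pos hg).ne'
      rw [inner_sub_left, inner_smul_left]
      simp only [conj_trivial]
      unfold co
      rw [div_mul_cancel₀ _ h2]
      linarith
    · exact ⟨u, hu, h1⟩
  · obtain ⟨x, hx, hx0⟩ := hne
    by_contra hcon
    rw [Finset.not_nonempty_iff_eq_empty, Finset.filter_eq_empty_iff] at hcon
    apply hx0
    refine zero_of_orth3 (hX.span x hx) fun d hd => ?_
    by_contra h1
    exact hcon hd ⟨x, hx, h1⟩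
  · intro a ha b hb hbn
    obtain ⟨ha, u, hu, hua⟩ := Finset.mem_filter.1 ha
    have hb0 : ∀ u ∈ X, ⟪u, b⟫ = (0 : ℝ) := by
      intro u hu
      by_contra h1
      exact hbn (Finset.mem_filter.2 ⟨hb, u, hu, h1⟩)
    have h1 := hb0 _ (hrefl a ha u hu)
    rw [inner_sub_left, hb0 u hu, inner_smul_left] at h1
    simp only [conj_trivial] at h1
    rcases mul_eq_zero.1 (by linarith : co a u * ⟪a, b⟫ = 0) with h2 | h2
    · exact absurd h2 (hco a ha u hua)
    · exact h2

/-- the large sums are taken by short roots -/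
theorem to_short2 (h : NRS Φ) {p : ℕ} {a x : E} (ha : a ∈ Φ) (hb : (p : ℝ) ≤ co a x + qs Φ a) :
    ∃ g ∈ Psi Φ, (p : ℝ) ≤ co g x + qs Φ g := by
  by_contra hcon
  push Not at hcon
  have hp0 : (0 : ℝ) ≤ p := Nat.cast_nonneg p
  rcases h.length ha with hl | hl | hl
  · have := hcon a (mem_Psi.2 ⟨ha, hl⟩)
    linarith
  · obtain ⟨g, hg, hag⟩ := h.exists_short ha
    have h3 : inner ℝ a g = (2 : ℝ) := by
      rcases h.four ha hl hg with h3 | h3 | h3
      · rw [h3] at hag; norm_num at hag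
      · exact h3
      · rw [h3] at hag; norm_num at hag
    obtain ⟨h5, h6⟩ := h.four_sub ha hl hg h3
    have h7 : inner ℝ x a = (inner ℝ x g : ℝ) + inner ℝ x (a - g) := by rw [← inner_add_right]; congr 1; abel
    have h8 : co a x = (co g x + co (a - g) x) / 2 := by
      rw [co_Psi hg, co_Psi h5]
      unfold co
      rw [hl, h7]
      ring
    have h9 := h.qs_four ha hl hg h5
    have h10 := hcon g hg
    have h11 := hcon _ h5
    linarith
  · obtain ⟨g, hg, hag⟩ := h.exists_short ha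
    have h3 : inner ℝ a g = (3 : ℝ) := by
      rcases h.six ha hl hg with h3 | h3 | h3
      · rw [h3] at hag; norm_num at hag
      · exact h3
      · rw [h3] at hag; norm_num at hag
    obtain ⟨h5, h6⟩ := h.six_sub ha hl hg h3
    have h7 : inner ℝ x a = (inner ℝ x g : ℝ) + inner ℝ x (a - g) := by rw [← inner_add_right]; congr 1; abel
    have h8 : co a x = (co g x + co (a - g) x) / 3 := by
      rw [co_Psi hg, co_Psi h5]
      unfold co
      rw [hl, h7]
      ring
    have h9 := h.qs_six ha hl hg h5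
    have h10 := hcon g hg
    have h11 := hcon _ h5
    linarith

/-! ### The configuration -/

/-- The data: a short root `a` and a weight `x` with `⟨x, a⟩ = k ≥ 1`, no roots of square length six, at most `k + qs a`
weights, the bound being `p`. -/
structure Cf (Φ X : Finset E) (a x : E) (k p : ℕ) : Prop where
  nrs : NRS Φ
  sat : Sat' Φ X
  no6 : ∀ b ∈ Φ, inner ℝ b b ≠ (6 : ℝ)
  a_mem : a ∈ Psi Φ
  x_mem : x ∈ X
  k_pos : 1 ≤ k
  hk : (inner ℝ x a : ℝ) = k
  card_le : X.card ≤ p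
  le_p : (p : ℝ) ≤ k + qs Φ a

open Classical in
/-- the neighbours on which `x` is positive -/
noncomputable def W1 (Φ : Finset E) (a x : E) : Finset E := (Nb Φ a).filter fun y => (0 : ℝ) < inner ℝ x y

open Classical in
/-- the long roots on which `x` is positive -/
noncomputable def W2 (Φ : Finset E) (a x : E) : Finset E := (L4 Φ a).filter fun y => (0 : ℝ) < inner ℝ x y

open Classical in
/-- the orthogonal short roots `b - a` on which `x` is positive -/
noncomputable def W0 (Φ : Finset E) (a x : E) : Finset E :=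
  ((L4 Φ a).image fun b => b - a).filter fun y => (0 : ℝ) < inner ℝ x y

theorem mem_W1 {a x y : E} : y ∈ W1 Φ a x ↔ y ∈ Nb Φ a ∧ (0 : ℝ) < inner ℝ x y := by
  classical
  simp [W1]

theorem mem_W2 {a x y : E} : y ∈ W2 Φ a x ↔ y ∈ L4 Φ a ∧ (0 : ℝ) < inner ℝ x y := by
  classical
  simp [W2]

theorem mem_W0 {a x y : E} : y ∈ W0 Φ a x ↔ y + a ∈ L4 Φ a ∧ (0 : ℝ) < inner ℝ x y := by
  classical
  unfold W0
  rw [Finset.mem_filter, Finset.mem_image]
  constructor
  · rintro ⟨⟨b, hb, rfl⟩, h2⟩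
    exact ⟨by rwa [sub_add_cancel], h2⟩
  · rintro ⟨h1, h2⟩
    exact ⟨⟨_, h1, add_sub_cancel_right _ _⟩, h2⟩

namespace Cf

variable {a x : E} {k p : ℕ} (H : Cf Φ X a x k p)
include H

theorem a2 : (inner ℝ a a : ℝ) = 2 := (mem_Psi.1 H.a_mem).2

/-- the short roots `b - a` -/
theorem L4_sub {b : E} (hb : b ∈ L4 Φ a) : b - a ∈ Psi Φ ∧ (inner ℝ (b - a) a : ℝ) = 0 := by
  obtain ⟨h1, h2, h3⟩ := mem_L4.1 hb
  exact H.nrs.four_sub h1 h2 H.a_mem h3

/-- integrality -/
theorem int_short {y z : E} (hy : y ∈ Psi Φ) (hz : z ∈ X) : ∃ m : ℤ, (inner ℝ z y : ℝ) = m := by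
  obtain ⟨m, hm⟩ := H.sat.int y (mem_Psi.1 hy).1 z hz
  exact ⟨m, by rw [← hm, co_Psi hy]⟩

theorem one_le {y : E} (hy : y ∈ Psi Φ) (h0 : (0 : ℝ) < inner ℝ x y) : (1 : ℝ) ≤ inner ℝ x y := by
  obtain ⟨m, hm⟩ := H.int_short hy H.x_mem
  rw [hm] at h0 ⊢
  have : (0 : ℤ) < m := by exact_mod_cast h0
  exact_mod_cast this

/-- a root with a positive value -/
theorem sub_mem {y : E} (hy : y ∈ Φ) (h0 : (0 : ℝ) < inner ℝ x y) : x - y ∈ X := by
  obtain ⟨m, hm⟩ := H.sat.int y hy x H.x_mem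
  have h1 : (0 : ℝ) < co y x := by
    have := H.nrs.toRS.inner_pos hy
    unfold co
    positivity
  rw [hm] at h1
  have h2 : (0 : ℤ) < m := by exact_mod_cast h1
  have h3 : (1 : ℝ) ≤ m := by exact_mod_cast h2
  have := H.sat.str y hy x H.x_mem 1 (by rw [hm, Nat.cast_one]; exact h3)
  rwa [Nat.cast_one, one_smul] at this

/-- twice a short root -/
theorem sub_two_mem {y : E} (hy : y ∈ Psi Φ) (h0 : (2 : ℝ) ≤ inner ℝ x y) : x - (2 : ℝ) • y ∈ X := by
  have := H.sat.str y (mem_Psi.1 hy).1 x H.x_mem 2 (by rw [co_Psi hy]; exact_mod_cast h0)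
  exact_mod_cast this

/-- the elements of the list: inner product with `a` and norm -/
theorem Y_cases {y : E} (hy : y ∈ W1 Φ a x ∨ y ∈ W2 Φ a x ∨ y ∈ W0 Φ a x) :
    y ∈ Φ ∧ (0 : ℝ) < inner ℝ x y ∧ ((y ∈ Psi Φ ∧ ((inner ℝ y a : ℝ) = 1 ∨ (inner ℝ y a : ℝ) = 0)) ∨
      ((inner ℝ y y : ℝ) = 4 ∧ (inner ℝ y a : ℝ) = 2)) := by
  rcases hy with hy | hy | hy
  · rw [mem_W1, mem_Nb] at hy
    exact ⟨(mem_Psi.1 hy.1.1).1, hy.2, Or.inl ⟨hy.1.1, Or.inl hy.1.2⟩⟩
  · rw [mem_W2, mem_L4] at hy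
    exact ⟨hy.1.1, hy.2, Or.inr ⟨hy.1.2.1, hy.1.2.2⟩⟩
  · rw [mem_W0] at hy
    obtain ⟨h1, h2⟩ := H.L4_sub hy.1
    rw [add_sub_cancel_right] at h1 h2
    exact ⟨(mem_Psi.1 h1).1, hy.2, Or.inl ⟨h1, Or.inr h2⟩⟩

end Cf

open Classical in
/-- the list of the weights -/
noncomputable def Ls (Φ : Finset E) (a x : E) (k : ℕ) : Finset E :=
  ((Finset.range (k + 1)).image fun j : ℕ => x - (j : ℝ) • a) ∪
    ((W1 Φ a x ∪ W2 Φ a x ∪ W0 Φ a x).image fun y => x - y)

theorem mem_Ls {a x : E} {k : ℕ} {z : E} : z ∈ Ls Φ a x k ↔ (∃ j : ℕ, j ≤ k ∧ z = x - (j : ℝ) • a) ∨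
    ∃ y, (y ∈ W1 Φ a x ∨ y ∈ W2 Φ a x ∨ y ∈ W0 Φ a x) ∧ z = x - y := by
  classical
  unfold Ls
  rw [Finset.mem_union, Finset.mem_image, Finset.mem_image]
  constructor
  · rintro (⟨j, hj, rfl⟩ | ⟨y, hy, rfl⟩)
    · exact Or.inl ⟨j, Nat.lt_succ_iff.1 (Finset.mem_range.1 hj), rfl⟩
    · right
      rw [Finset.mem_union, Finset.mem_union, or_assoc] at hy
      exact ⟨y, hy, rfl⟩
  · rintro (⟨j, hj, rfl⟩ | ⟨y, hy, rfl⟩)
    · exact Or.inl ⟨j, Finset.mem_range.2 (Nat.lt_succ_iff.2 hj), rfl⟩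
    · right
      refine ⟨y, ?_, rfl⟩
      rw [Finset.mem_union, Finset.mem_union, or_assoc]
      exact hy

namespace Cf

variable {a x : E} {k p : ℕ} (H : Cf Φ X a x k p)
include H

theorem Ls_sub : Ls Φ a x k ⊆ X := by
  classical
  intro z hz
  unfold Ls at hz
  rw [Finset.mem_union, Finset.mem_image, Finset.mem_image] at hz
  rcases hz with ⟨j, hj, rfl⟩ | ⟨y, hy, rfl⟩
  · have hj' : j ≤ k := Nat.lt_succ_iff.1 (Finset.mem_range.1 hj)
    refine H.sat.str a (mem_Psi.1 H.a_mem).1 x H.x_mem j ?_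
    rw [co_Psi H.a_mem, H.hk]
    exact_mod_cast hj'
  · rw [Finset.mem_union, Finset.mem_union, or_assoc] at hy
    obtain ⟨h1, h2, -⟩ := H.Y_cases hy
    exact H.sub_mem h1 h2

theorem card_Ls : (Ls Φ a x k).card = k + 1 + ((W1 Φ a x).card + (W2 Φ a x).card + (W0 Φ a x).card) := by
  classical
  have ha := H.a2
  unfold Ls
  rw [Finset.card_union_of_disjoint, Finset.card_image_of_injective, Finset.card_image_of_injective,
    Finset.card_range, Finset.card_union_of_disjoint, Finset.card_union_of_disjoint]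
  · rw [Finset.disjoint_left]
    intro y h1 h2
    rw [mem_W1, mem_Nb] at h1
    rw [mem_W2, mem_L4] at h2
    rw [h1.1.2] at h2
    norm_num at h2
  · rw [Finset.disjoint_left]
    intro y h1 h2
    rw [mem_W0] at h2
    have h4 := (H.L4_sub h2.1).2
    rw [add_sub_cancel_right] at h4
    rw [Finset.mem_union, mem_W1, mem_W2, mem_Nb, mem_L4] at h1
    rcases h1 with h1 | h1
    · rw [h4] at h1; norm_num at h1
    · rw [h4] at h1; norm_num at h1
  · exact fun y y' h => sub_right_injective h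
  · intro j j' h
    have h1 : (j : ℝ) • a = (j' : ℝ) • a := sub_right_injective h
    have h2 : (inner ℝ ((j : ℝ) • a) a : ℝ) = inner ℝ ((j' : ℝ) • a) a := by rw [h1]
    rw [inner_smul_left, inner_smul_left, ha] at h2
    simp only [conj_trivial] at h2
    have h3 : (j : ℝ) = j' := by linarith
    exact_mod_cast h3
  · rw [Finset.disjoint_left]
    intro z h1 h2
    rw [Finset.mem_image] at h1 h2
    obtain ⟨j, -, rfl⟩ := h1
    obtain ⟨y, hy, hyz⟩ := h2
    have h3 : y = (j : ℝ) • a := sub_right_injective hyz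
    rw [Finset.mem_union, Finset.mem_union, or_assoc] at hy
    obtain ⟨-, -, h4⟩ := H.Y_cases hy
    have h5 : (inner ℝ y a : ℝ) = 2 * j := by
      rw [h3, inner_smul_left, ha]
      simp only [conj_trivial]
      ring
    have h6 : (inner ℝ y y : ℝ) = 2 * j ^ 2 := by
      rw [h3, inner_smul_left, inner_smul_right, ha]
      simp only [conj_trivial]
      ring
    rcases h4 with ⟨h4, h7 | h7⟩ | ⟨h4, h7⟩
    · rw [h7] at h5
      have h8 : (1 : ℤ) = 2 * j := by exact_mod_cast h5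
      omega
    · rw [(mem_Psi.1 h4).2] at h6
      rw [h7] at h5
      have h8 : (j : ℝ) = 0 := by linarith
      rw [h8] at h6
      norm_num at h6
    · rw [h7] at h5
      have h8 : (j : ℝ) = 1 := by linarith
      rw [h4, h8] at h6
      norm_num at h6

end Cf

end AT
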