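import Pool.Agent.Helper2.PN.Core
import Pool.Agent.Helper2.PN.Blk

/-!
Project AT (MP_b8862a_ag): the exceptional sets in terms of the dimensions of the irreducible modules of simple Lie algebras.
-/

set_option linter.unusedSectionVars false

open Matrix Module GH

attribute [local instance 100] LieRing.ofAssociativeRing

namespace MH

/-- `L` is a simple Lie algebra of endomorphisms of `V`, of dimension larger than three (that is, not `sl_2`), and `V` is an
irreducible module. -/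
def IrrSimple {V : Type} [AddCommGroup V] [Module ℂ V] (L : LieSubalgebra ℂ (Module.End ℂ V)) : Prop :=
  LieAlgebra.IsSimple ℂ L ∧ 3 < finrank ℂ L ∧
    ∀ W : Submodule ℂ V, (∀ x ∈ L, ∀ u ∈ W, x u ∈ W) → W = ⊥ ∨ W = ⊤

/-- The dimensions of the irreducible self-dual modules of the simple Lie algebras other than `sl_2`, except the standard
modules of the orthogonal and symplectic Lie algebras: `V = ℂ^n` carries a nondegenerate symmetric or alternating form `ω`,
and the simple Lie algebra `L` consists of endomorphisms which are skew for `ω`, but not of all of them. -/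
def SelfDim : Set ℕ := {r | ∃ (n : Type) (_ : Fintype n) (ω : LinearMap.BilinForm ℂ (n → ℂ))
    (L : LieSubalgebra ℂ (Module.End ℂ (n → ℂ))), Fintype.card n = r ∧ (ω.IsSymm ∨ ω.IsAlt) ∧ ω.Nondegenerate ∧
    IrrSimple L ∧ (∀ x ∈ L, ∀ u v, ω (x u) v = -ω u (x v)) ∧
    ¬ ∀ x : Module.End ℂ (n → ℂ), (∀ u v, ω (x u) v = -ω u (x v)) → x ∈ L}

/-- The dimensions of the irreducible modules of the simple Lie algebras other than `sl_2`, except the standard modules: the
simple Lie algebra `L` of endomorphisms of `V = ℂ^n` is not the one of all endomorphisms of trace zero, nor the one of all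
endomorphisms which are skew for a nondegenerate symmetric or alternating form. -/
def IrrDim : Set ℕ := {r | ∃ (n : Type) (_ : Fintype n) (L : LieSubalgebra ℂ (Module.End ℂ (n → ℂ))),
    Fintype.card n = r ∧ IrrSimple L ∧ (¬ ∀ x : Module.End ℂ (n → ℂ), LinearMap.trace ℂ (n → ℂ) x = 0 → x ∈ L) ∧
    ¬ ∃ ω : LinearMap.BilinForm ℂ (n → ℂ), (ω.IsSymm ∨ ω.IsAlt) ∧ ω.Nondegenerate ∧
      ∀ x : Module.End ℂ (n → ℂ), x ∈ L ↔ ∀ u v, ω (x u) v = -ω u (x v)}

/-- The exceptional ranks of the self-dual blocks: the numbers less than nine, the proper powers, and the dimensions of the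
irreducible self-dual modules, except the standard ones, of the simple Lie algebras other than `sl_2`. -/
def ExSelf : Set ℕ := {r | r < 9} ∪ {r | ∃ d k : ℕ, 2 ≤ k ∧ r = d ^ k} ∪ SelfDim

/-- The exceptional ranks of the blocks: the numbers less than nine, the proper powers, and the dimensions of the irreducible
modules, except the standard ones, of the simple Lie algebras other than `sl_2`. -/
def ExAll : Set ℕ := ExSelf ∪ IrrDim

theorem selfDim_sub : SelfDim ⊆ PX.Ex3 := by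
  rintro r ⟨n, _, ω, L, rfl, hω, hnd, ⟨hs, h3, hirr⟩, hsk, hfull⟩
  have := hs
  have h1 := AT.ex3_of2 hω hnd hirr hsk h3 hfull
  rwa [Module.finrank_fintype_fun_eq_card] at h1

theorem irrDim_sub : IrrDim ⊆ PX.Ex3 ∪ AT.Ex4 := by
  rintro r ⟨n, _, L, rfl, ⟨hs, h3, hirr⟩, hsl, hfull⟩
  have := hs
  have h1 := AT.ex34_of2 hirr h3 hsl hfull
  rwa [Module.finrank_fintype_fun_eq_card] at h1

theorem exSelf_sub : ExSelf ⊆ ExDim3 := by
  rintro r ((h | h) | h)
  · exact Or.inr (Or.inl h)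
  · exact Or.inr (Or.inr h)
  · exact Or.inl (selfDim_sub h)

theorem exAll_sub : ExAll ⊆ ExDim4 := by
  rintro r (h | h)
  · exact Or.inl (exSelf_sub h)
  · rcases irrDim_sub h with h1 | h1
    · exact Or.inl (Or.inl h1)
    · exact Or.inr h1

theorem exP_self : ExP ExSelf where
  core := by
    intro n _ hn ω hω hnd L hL hirr hsk
    have : LieAlgebra.IsSimple ℂ L := hL
    by_cases hfull : ∀ x : Module.End ℂ (n → ℂ), (∀ u v, ω (x u) v = -ω u (x v)) → x ∈ L
    · exact Or.inl hfull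
    right
    by_cases h3 : 3 < finrank ℂ L
    · exact absurd (Or.inr ⟨n, inferInstance, ω, L, rfl, hω, hnd, ⟨hL, h3, hirr⟩, hsk, hfull⟩) hn
    · exact AT.prog_of_three2 hirr (by omega)
  small := fun n hn => Or.inl (Or.inl hn)
  pow := fun d k hk => Or.inl (Or.inr ⟨d, k, hk, rfl⟩)

theorem crUP_all {r : ℕ} {h : ℤ → ℕ} (hr : r ∉ ExAll) (hI : IndecU h) (hA : ¬ Arith r h) : CrUP r h := by
  refine ⟨hI, hA, ?_, ?_⟩
  · by_contra hcon
    exact hr (Or.inl (Or.inl (Or.inl (by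
      change r < 9
      omega))))
  · intro L hL hirr
    by_cases hsl : ∀ x : Module.End ℂ (Fin r → ℂ), LinearMap.trace ℂ _ x = 0 → x ∈ L
    · exact Or.inl hsl
    right
    by_cases hfull : ∃ ω : LinearMap.BilinForm ℂ (Fin r → ℂ), (ω.IsSymm ∨ ω.IsAlt) ∧ ω.Nondegenerate ∧
      ∀ x : Module.End ℂ (Fin r → ℂ), x ∈ L ↔ ∀ u v, ω (x u) v = -ω u (x v)
    · exact Or.inl hfull
    right
    by_cases h3 : 3 < finrank ℂ L
    · exact absurd (Or.inr ⟨Fin r, inferInstance, L, Fintype.card_fin r, ⟨hL, h3, hirr⟩, hsl, hfull⟩) hr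
    · exact AT.prog_of_three2 hirr (by omega)

theorem fullP_all : FullP ExAll := by
  intro n _ _ w Q S P H Γ G e he r W V hVW hWV hr S' R hR hg hA hI hE
  exact G.tyN_crUP H he hVW hWV hr hR hg (crUP_all hE hI hA)

theorem card_mono2 {A B : Set ℕ} (h : A ⊆ B) (X : ℕ) :
    Nat.card {n : Fin X // (n : ℕ) ∈ A} ≤ Nat.card {n : Fin X // (n : ℕ) ∈ B} :=
  Nat.card_le_card_of_injective (fun n => (⟨n.1, h n.2⟩ : {n : Fin X // (n : ℕ) ∈ B})) fun a b hab => by
    have h1 := congrArg (fun z : {n : Fin X // (n : ℕ) ∈ B} => z.1) hab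
    exact Subtype.ext h1

theorem half_self : ∃ C : ℝ, ∀ X : ℕ, (Nat.card {n : Fin X // (n : ℕ) ∈ ExSelf} : ℝ) ≤ C * Real.sqrt X := by
  obtain ⟨C, hC⟩ := half_dim3
  refine ⟨C, fun X => le_trans ?_ (hC X)⟩
  exact_mod_cast card_mono2 exSelf_sub X

theorem tt_all : ∃ C : ℝ, ∀ X : ℕ, (Nat.card {n : Fin X // (n : ℕ) ∈ ExAll} : ℝ) ≤ C * (X : ℝ) ^ (2 / 3 : ℝ) := by
  obtain ⟨C, hC⟩ := tt_dim4
  refine ⟨C, fun X => le_trans ?_ (hC X)⟩
  exact_mod_cast card_mono2 exAll_sub X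

theorem prime_all {p : ℕ} (hp : p.Prime) (h7 : 7 < p) : p ∉ ExSelf ∧ p ∉ ExAll :=
  ⟨fun h => (prime_dim2 hp h7).1 (exSelf_sub h), fun h => (prime_dim2 hp h7).2 (exAll_sub h)⟩

theorem prime50_all {n q : ℕ} (hn : 0 < n) (hq : q.Prime) (hd : q ∣ n) (h50 : 50 * n ≤ q ^ 2) :
    n ∉ ExSelf ∧ n ∉ ExAll :=
  ⟨fun h => (prime_dim34 hn hq hd h50).1 (exSelf_sub h), fun h => (prime_dim34 hn hq hd h50).2 (exAll_sub h)⟩

/-- **Blocks of prime rank** `r > 7`: it suffices that a conjugate has a Hodge number `h` with `1 < h < r`. -/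
theorem okL_of_prime2 {n : Type*} [Fintype n] [DecidableEq n] {w : ℤ} {Q : Matrix n n ℚ} {S : Finset ℤ}
    {P : ℤ → Matrix n n ℂ} (H : IsHW w Q S P) {e : Matrix n n ℂ} (he : IsBlk P e) (hr : e.rank.Prime)
    (h7 : 7 < e.rank) {σ : ℂ ≃+* ℂ} {p : ℤ} (h1 : 1 < (e.map σ * P p).rank)
    (h2 : (e.map σ * P p).rank < e.rank) : OkL ExSelf ExAll w Q S P e := by
  rcases okL_of_prime H he hr h7 h1 h2 with h | ⟨τ, h3, h4⟩
  · exact Or.inl h
  refine Or.inr ⟨τ, h3, ?_⟩
  rcases h4 with h4 | ⟨h4 | h4, h5⟩ | h4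
  · exact Or.inl h4
  · exact Or.inr (Or.inl ⟨Or.inl ⟨h4.1, fun h => h4.2.1 (exSelf_sub h), h4.2.2⟩, h5⟩)
  · exact Or.inr (Or.inl ⟨Or.inr ⟨fun h => h4.1 (exAll_sub h), h4.2⟩, h5⟩)
  · exact Or.inr (Or.inr h4)

end MH
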