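import Pool.Agent.Helper2.PN.Tight

/-!
Project AT (MP_b8862a_ag), primes: a prime larger than seven is not the dimension of a non-standard irreducible module
(Gabber's theorem on irreducible representations of prime dimension, in terms of root systems and sets of weights).
-/

set_option linter.unusedSectionVars false

open scoped RealInnerProductSpace
open Module PF TF PW

namespace AT

variable {E : Type*} [NormedAddCommGroup E] [InnerProductSpace ℝ E] {Φ X : Finset E}

/-- the weights of the vector module of type `B` -/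
theorem typeB_of2 (H : ORS Φ) (hX : ∀ y, y ∈ X ↔ y = 0 ∨ y ∈ Psi Φ) : TypeB Φ X := by
  classical
  have h : NRS Φ := H.toNRS
  obtain ⟨T, hTP, hTn, hTc⟩ := H.exists_half
  set e := T.equivFin.symm with he
  have hs2 : (Real.sqrt 2) * (Real.sqrt 2) = 2 := Real.mul_self_sqrt (by norm_num)
  have hs0 : (0 : ℝ) < Real.sqrt 2 := Real.sqrt_pos.2 (by norm_num)
  have hcx : ∀ i, (Real.sqrt 2) • ((Real.sqrt 2)⁻¹ • ((e i : T) : E)) = ((e i : T) : E) := by
    intro i
    rw [smul_smul, mul_inv_cancel₀ hs0.ne', one_smul]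
  have hmem : ∀ i, ((e i : T) : E) ∈ Psi Φ := fun i => hTP (e i).2
  have hxP : ∀ y, y ∈ Psi Φ ↔ ∃ i, y = ((e i : T) : E) ∨ y = -((e i : T) : E) := by
    intro y
    constructor
    · intro hy
      rcases hTc y hy with h1 | h1
      · exact ⟨e.symm ⟨y, h1⟩, Or.inl (by simp)⟩
      · exact ⟨e.symm ⟨-y, h1⟩, Or.inr (by simp)⟩
    · rintro ⟨i, rfl | rfl⟩
      · exact hmem i
      · exact h.neg_Psi (hmem i)
  have horth : ∀ i j, i ≠ j → inner ℝ ((e i : T) : E) ((e j : T) : E) = (0 : ℝ) := by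
    intro i j hij
    rcases H.inner_cases (hmem i) (hmem j) with e1 | e1 | e1
    · exact absurd (e.injective (Subtype.ext e1)) hij
    · exact absurd (e i).2 (by rw [e1]; exact hTn _ (e j).2)
    · exact e1
  refine ⟨T.card, fun i => (Real.sqrt 2)⁻¹ • ((e i : T) : E), ?_, Real.sqrt 2, hs0, ?_, ?_⟩
  · rw [orthonormal_iff_ite]
    intro i j
    rw [inner_smul_left, inner_smul_right]
    simp only [conj_trivial]
    by_cases hij : i = j
    · subst hij
      rw [if_pos rfl, (mem_Psi.1 (hmem i)).2, ← mul_assoc, ← mul_inv, hs2]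
      norm_num
    · rw [if_neg hij, horth i j hij]
      ring
  · intro y
    simp only [hcx]
    rw [← hxP y]
    exact hX y
  · intro y
    simp only [smul_add, smul_sub, hcx]
    rw [← hxP y]
    constructor
    · intro hy
      by_cases hyP : y ∈ Psi Φ
      · exact Or.inl hyP
      right
      obtain ⟨-, c, hc, c', hc', hcc, hyc⟩ := H.long hy hyP
      obtain ⟨i, hi⟩ := (hxP c).1 hc
      obtain ⟨j, hj⟩ := (hxP c').1 hc'
      have hij : i ≠ j := by
        rintro rfl
        rcases hi with hi | hi <;> rcases hj with hj | hj <;>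
          simp only [hi, hj, inner_neg_left, inner_neg_right, (mem_Psi.1 (hmem i)).2] at hcc <;> norm_num at hcc
      rcases hi with hi | hi <;> rcases hj with hj | hj
      · exact ⟨i, j, hij, Or.inl (by rw [hyc, hi, hj])⟩
      · exact ⟨i, j, hij, Or.inr (Or.inl (by rw [hyc, hi, hj]; abel))⟩
      · exact ⟨j, i, hij.symm, Or.inr (Or.inl (by rw [hyc, hi, hj]; abel))⟩
      · exact ⟨i, j, hij, Or.inr (Or.inr (by rw [hyc, hi, hj]; abel))⟩
    · rintro (hy | ⟨i, j, hij, hy | hy | hy⟩)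
      · exact (mem_Psi.1 hy).1
      · rw [hy]; exact H.add_root (hmem i) (hmem j) (horth i j hij)
      · rw [hy]; exact H.sub_root (hmem i) (hmem j) (horth i j hij)
      · rw [hy]; exact h.toRS.neg_mem (H.add_root (hmem i) (hmem j) (horth i j hij))

/-- the sum of the weights is zero -/
theorem sum_zero2 (h : RS Φ) (hX : Sat' Φ X) : ∑ z ∈ X, z = 0 := by
  refine zero_of_orth3 (Submodule.sum_mem _ fun z hz => hX.span z hz) fun d hd => ?_
  have hdd := (h.inner_pos hd).ne'
  have hr : ∀ z : E, (inner ℝ (z - co d z • d) d : ℝ) = -inner ℝ z d := by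
    intro z
    rw [inner_sub_left, inner_smul_left]
    simp only [conj_trivial]
    unfold co
    rw [div_mul_cancel₀ _ hdd]
    ring
  have hrr : ∀ z : E, (z - co d z • d) - co d (z - co d z • d) • d = z := by
    intro z
    have h1 : co d (z - co d z • d) = -co d z := by
      unfold co at hr ⊢
      rw [hr]
      ring
    rw [h1, neg_smul]
    abel
  have h1 : ∑ z ∈ X, -(inner ℝ z d : ℝ) = ∑ z ∈ X, (inner ℝ z d : ℝ) :=
    Finset.sum_nbij' (fun z => z - co d z • d) (fun z => z - co d z • d)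
      (fun z hz => sref2 hX hd (h.neg_mem hd) hz) (fun z hz => sref2 hX hd (h.neg_mem hd) hz)
      (fun z _ => hrr z) (fun z _ => hrr z) (fun z _ => (hr z).symm)
  rw [Finset.sum_neg_distrib] at h1
  rw [sum_inner]
  linarith

namespace Cf

variable {a x : E} {k p : ℕ} (H : Cf Φ X a x k p)
include H

/-- no root touches `a`: rank one -/
theorem typeA (h1 : Nb Φ a = ∅) (h4 : L4 Φ a = ∅) : TypeA Φ := by
  classical
  have ha := (mem_Psi.1 H.a_mem).1
  have key : ∀ g ∈ Φ, g = a ∨ g = -a ∨ (inner ℝ g a : ℝ) = 0 := by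
    intro g hg
    rcases H.nrs.length hg with hl | hl | hl
    · have hgP : g ∈ Psi Φ := mem_Psi.2 ⟨hg, hl⟩
      by_cases e1 : g = a
      · exact Or.inl e1
      by_cases e2 : g = -a
      · exact Or.inr (Or.inl e2)
      rcases H.nrs.inner_Psi hgP H.a_mem e1 e2 with h3 | h3 | h3
      · exact Or.inr (Or.inr h3)
      · have h5 : g ∈ Nb Φ a := mem_Nb.2 ⟨hgP, h3⟩
        rw [h1] at h5
        exact absurd h5 (Finset.notMem_empty _)
      · have h5 : -g ∈ Nb Φ a := mem_Nb.2 ⟨H.nrs.neg_Psi hgP, by rw [inner_neg_left, h3]; norm_num⟩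
        rw [h1] at h5
        exact absurd h5 (Finset.notMem_empty _)
    · rcases H.nrs.four hg hl H.a_mem with h3 | h3 | h3
      · exact Or.inr (Or.inr h3)
      · have h5 : g ∈ L4 Φ a := mem_L4.2 ⟨hg, hl, h3⟩
        rw [h4] at h5
        exact absurd h5 (Finset.notMem_empty _)
      · have h5 : -g ∈ L4 Φ a := mem_L4.2 ⟨H.nrs.toRS.neg_mem hg, by rw [inner_neg_neg]; exact hl, by
          rw [inner_neg_left, h3]; norm_num⟩
        rw [h4] at h5
        exact absurd h5 (Finset.notMem_empty _)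
    · exact absurd hl (H.no6 g hg)
  have hS := H.nrs.irr {a, -a} (by
      intro y hy
      rw [Finset.mem_insert, Finset.mem_singleton] at hy
      rcases hy with rfl | rfl
      · exact ha
      · exact H.nrs.toRS.neg_mem ha) ⟨a, Finset.mem_insert_self _ _⟩ (by
      intro y hy g hg hgn
      rw [Finset.mem_insert, Finset.mem_singleton, not_or] at hgn
      rw [Finset.mem_insert, Finset.mem_singleton] at hy
      have h3 : (inner ℝ g a : ℝ) = 0 := by
        rcases key g hg with h3 | h3 | h3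
        · exact absurd h3 hgn.1
        · exact absurd h3 hgn.2
        · exact h3
      rcases hy with rfl | rfl
      · rw [real_inner_comm]; exact h3
      · rw [inner_neg_left, real_inner_comm, h3, neg_zero])
  refine ⟨a, fun y => ?_⟩
  rw [← hS, Finset.mem_insert, Finset.mem_singleton]

/-- only orthogonal neighbours: type `B` -/
theorem typeB (h1 : Nb Φ a = ∅) (hk2 : 2 ≤ k) {b : E} (hb : b ∈ L4 Φ a) : TypeB Φ X := by
  have hkR : (2 : ℝ) ≤ k := by exact_mod_cast hk2
  have hO : ORS Φ := ⟨H.nrs, fun g hg => by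
    have h2 := H.nrs.card_Nb' H.a_mem hg
    rw [h1, Finset.card_empty, Finset.card_eq_zero] at h2
    exact h2⟩
  -- nothing in `W0`
  have hW0 : ∀ c, c ∉ W0 Φ a x := by
    intro c hc
    have h2 := H.pair2 hc
    rw [inner_sub_right, H.hk, H.val_one (Or.inr hc)] at h2
    linarith
  have hL : ∀ b ∈ L4 Φ a, (inner ℝ x (b - a) : ℝ) = 0 := by
    intro b hb
    by_contra h2
    obtain ⟨c, hc⟩ := H.exists_W0 hb h2
    exact hW0 c hc
  -- the pairing is two
  have hk : k = 2 := by
    have h2 := hL b hb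
    obtain ⟨b1, b2, b3⟩ := mem_L4.1 hb
    rw [inner_sub_right, H.hk] at h2
    obtain ⟨m, hm⟩ := H.sat.int b b1 x H.x_mem
    have h4 : co b x = k / 2 := by
      unfold co
      rw [b2]
      linarith
    rw [h4] at hm
    have h5 : (k : ℝ) = 2 * m := by linarith
    have h6 : (k : ℤ) = 2 * m := by exact_mod_cast h5
    have h7 : ¬ (4 : ℕ) ≤ k := by
      intro h7
      have h8 : (4 : ℝ) ≤ k := by exact_mod_cast h7
      refine H.two_notMem b1 (by rw [b2, b3]; norm_num) ?_
      have := H.sat.str b b1 x H.x_mem 2 (by rw [h4]; push_cast; linarith)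
      exact_mod_cast this
    omega
  have hkR : (k : ℝ) = 2 := by rw [hk]; norm_num
  -- `x = a`
  have hxa : x = a := by
    have h2 : x - a ∈ Submodule.span ℝ (Psi Φ : Set E) :=
      Submodule.sub_mem _ (span_Psi3 H.nrs (H.sat.span x H.x_mem)) (Submodule.subset_span H.a_mem)
    refine sub_eq_zero.1 (zero_of_orth3 h2 fun d hd => ?_)
    rcases hO.inner_cases hd H.a_mem with h3 | h3 | h3
    · rw [h3, inner_sub_left, H.hk, H.a2, hkR]
      norm_num
    · rw [h3, inner_neg_right, inner_sub_left, H.hk, H.a2, hkR]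
      norm_num
    · have h4 : d + a ∈ L4 Φ a := by
        refine mem_L4.2 ⟨hO.add_root hd H.a_mem h3, ?_, ?_⟩
        · rw [inner_add_left, inner_add_right, inner_add_right, h3, real_inner_comm d a, h3, H.a2, (mem_Psi.1 hd).2]
          norm_num
        · rw [inner_add_left, h3, H.a2]
          norm_num
      have h5 := hL _ h4
      rw [add_sub_cancel_right] at h5
      rw [inner_sub_left, h5, real_inner_comm, h3]
      norm_num
  refine typeB_of2 hO fun y => ⟨fun hy => ?_, ?_⟩
  · rcases H.mem_X hy with ⟨j, hj, hyj⟩ | ⟨y', hy', hyy⟩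
    · rw [hxa] at hyj
      have hj3 : j = 0 ∨ j = 1 ∨ j = 2 := by omega
      rcases hj3 with rfl | rfl | rfl
      · right
        rw [hyj, Nat.cast_zero, zero_smul, sub_zero]
        exact H.a_mem
      · left
        rw [hyj, Nat.cast_one, one_smul, sub_self]
      · right
        have : a - ((2 : ℕ) : ℝ) • a = -a := by
          rw [Nat.cast_ofNat, two_smul]
          abel
        rw [hyj, this]
        exact H.nrs.neg_Psi H.a_mem
    · right
      rcases hy' with h3 | h3 | h3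
      · have := (mem_W1.1 h3).1
        rw [h1] at this
        exact absurd this (Finset.notMem_empty _)
      · have h4 := (H.L4_sub (mem_W2.1 h3).1).1
        have h5 := H.nrs.neg_Psi h4
        rw [hyy, hxa]
        rwa [neg_sub] at h5
      · exact absurd h3 (hW0 _)
  · have h0 : (0 : E) ∈ X := by
      have := H.sub_mem (mem_Psi.1 H.a_mem).1 (by rw [H.hk]; linarith)
      rwa [hxa, sub_self] at this
    rintro (rfl | hy)
    · exact h0
    · have h5 := H.nrs.orbit (S := {e | e ∈ Psi Φ ∧ e ∈ X}) (fun e he => he.1) ⟨a, H.a_mem, by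
          have := H.x_mem
          rwa [hxa] at this⟩
        (fun c hc s hs => ⟨H.nrs.refl_Psi hc hs.1, sref2 H.sat hc (H.nrs.toRS.neg_mem hc) hs.2⟩)
      have h6 : y ∈ (Psi Φ : Set E) := hy
      rw [← h5] at h6
      exact h6.2

/-- two neighbours in the list have inner product one -/
theorem w1_pair (hL : L4 Φ a = ∅) {y y' : E} (hy : y ∈ W1 Φ a x) (hy' : y' ∈ W1 Φ a x) (hne : y ≠ y') :
    (inner ℝ y y' : ℝ) = 1 := by
  obtain ⟨-, x1, x2⟩ := H.of_W1 hy
  obtain ⟨-, x1', x2'⟩ := H.of_W1 hy'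
  obtain ⟨yP, ya⟩ := mem_Nb.1 (mem_W1.1 hy).1
  obtain ⟨yP', ya'⟩ := mem_Nb.1 (mem_W1.1 hy').1
  have hay : a - y ∈ Psi Φ := H.nrs.sub_Psi H.a_mem yP (by rw [real_inner_comm]; exact ya)
  have hne' : y ≠ -y' := by
    intro h1
    rw [h1, inner_neg_left, ya'] at ya
    norm_num at ya
  rcases H.nrs.inner_Psi yP yP' hne hne' with h3 | h3 | h3
  · exfalso
    have h4 : (inner ℝ (a - y) y' : ℝ) = 1 := by
      rw [inner_sub_left, h3, real_inner_comm, ya']
      norm_num
    have h5 := H.nrs.sub_Psi hay yP' h4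
    have h6 : x - -(a - y - y') ∈ X := by
      refine H.sub_mem (mem_Psi.1 (H.nrs.neg_Psi h5)).1 ?_
      rw [inner_neg_right, inner_sub_right, x2, x1']
      norm_num
    have h7 : (inner ℝ (a - y - y') a : ℝ) = 0 := by
      rw [inner_sub_left, inner_sub_left, H.a2, ya, ya']
      norm_num
    rcases H.mem_X h6 with ⟨j, -, hj⟩ | ⟨u, hu, hj⟩
    · have h8 : -(a - y - y') = (j : ℝ) • a := sub_right_injective hj
      have h9 : (inner ℝ (-(a - y - y')) a : ℝ) = inner ℝ ((j : ℝ) • a) a := by rw [h8]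
      rw [inner_neg_left, h7, inner_smul_left, H.a2] at h9
      simp only [conj_trivial] at h9
      have h10 : (j : ℝ) = 0 := by linarith
      rw [h10, zero_smul, neg_eq_zero] at h8
      exact H.nrs.ne_zero _ (mem_Psi.1 h5).1 h8
    · have h8 : -(a - y - y') = u := sub_right_injective hj
      have h9 : (inner ℝ u a : ℝ) = 0 := by
        rw [← h8, inner_neg_left, h7, neg_zero]
      rcases hu with hu | hu | hu
      · rw [(mem_Nb.1 (mem_W1.1 hu).1).2] at h9
        norm_num at h9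
      · rw [(mem_L4.1 (mem_W2.1 hu).1).2.2] at h9
        norm_num at h9
      · have hW := (mem_W0.1 hu).1
        rw [hL] at hW
        exact absurd hW (Finset.notMem_empty _)
  · exact h3
  · exfalso
    have h4 : (inner ℝ (a - y) y' : ℝ) = 2 := by
      rw [inner_sub_left, h3, real_inner_comm, ya']
      norm_num
    have h5 := Psi_eq hay yP' h4
    have h6 := H.pair1 hy
    rw [h5, x1'] at h6
    norm_num at h6

/-- the differences: the weights are `x - s`, `s = 0`, `a` or a neighbour in the list -/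
theorem mem_S (hL : L4 Φ a = ∅) {b : E} (hb : b ∈ W1 Φ a x) {z : E} (hz : z ∈ X) :
    ∃ s, z = x - s ∧ (s = 0 ∨ (s ∈ Psi Φ ∧ (inner ℝ x s : ℝ) = 1 ∧ (s = a ∨ s ∈ W1 Φ a x))) := by
  obtain ⟨hk, -, -⟩ := H.of_W1 hb
  rcases H.mem_X hz with ⟨j, hj, h1⟩ | ⟨y, hy, h1⟩
  · have h2 : j = 0 ∨ j = 1 := by omega
    rcases h2 with rfl | rfl
    · exact ⟨0, by rw [h1, Nat.cast_zero, zero_smul], Or.inl rfl⟩
    · refine ⟨a, by rw [h1, Nat.cast_one, one_smul], Or.inr ⟨H.a_mem, ?_, Or.inl rfl⟩⟩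
      rw [H.hk, hk, Nat.cast_one]
  · refine ⟨y, h1, Or.inr ?_⟩
    rcases hy with hy | hy | hy
    · exact ⟨(mem_Nb.1 (mem_W1.1 hy).1).1, H.val_one (Or.inl hy), Or.inr hy⟩
    · have := (mem_W2.1 hy).1
      rw [hL] at this
      exact absurd this (Finset.notMem_empty _)
    · have := (mem_W0.1 hy).1
      rw [hL] at this
      exact absurd this (Finset.notMem_empty _)

theorem s_pair (hL : L4 Φ a = ∅) {s s' : E} (hs : s = a ∨ s ∈ W1 Φ a x) (hs' : s' = a ∨ s' ∈ W1 Φ a x)
    (hne : s ≠ s') : (inner ℝ s s' : ℝ) = 1 := by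
  rcases hs with rfl | hs
  · rcases hs' with rfl | hs'
    · exact absurd rfl hne
    · rw [real_inner_comm]
      exact (mem_Nb.1 (mem_W1.1 hs').1).2
  · rcases hs' with rfl | hs'
    · exact (mem_Nb.1 (mem_W1.1 hs).1).2
    · exact H.w1_pair hL hs hs' hne

/-- the inner products of the weights and the differences -/
theorem diff (hL : L4 Φ a = ∅) {b : E} (hb : b ∈ W1 Φ a x) {z z' : E} (hz : z ∈ X) (hz' : z' ∈ X) (hne : z ≠ z') :
    (inner ℝ z z : ℝ) = inner ℝ x x ∧ (inner ℝ z z' : ℝ) = inner ℝ x x - 1 ∧ z - z' ∈ Φ := by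
  obtain ⟨s, rfl, h1⟩ := H.mem_S hL hb hz
  obtain ⟨s', rfl, h2⟩ := H.mem_S hL hb hz'
  have hss : s ≠ s' := fun h => hne (by rw [h])
  have e1 : (inner ℝ (x - s) (x - s) : ℝ) = inner ℝ x x - 2 * inner ℝ x s + inner ℝ s s := by
    rw [inner_sub_left, inner_sub_right, inner_sub_right, real_inner_comm x s]
    ring
  have e2 : (inner ℝ (x - s) (x - s') : ℝ) = inner ℝ x x - inner ℝ x s - inner ℝ x s' + inner ℝ s s' := by
    rw [inner_sub_left, inner_sub_right, inner_sub_right, real_inner_comm x s]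
    ring
  have e3 : x - s - (x - s') = s' - s := by abel
  rw [e1, e2, e3]
  rcases h1 with rfl | ⟨sP, s1, s2⟩
  · rcases h2 with rfl | ⟨sP', s1', s2'⟩
    · exact absurd rfl hss
    · refine ⟨by rw [inner_zero_right, inner_zero_right]; ring, by rw [inner_zero_left, inner_zero_right, s1']; ring, ?_⟩
      rw [sub_zero]
      exact (mem_Psi.1 sP').1
  · rcases h2 with rfl | ⟨sP', s1', s2'⟩
    · refine ⟨by rw [s1, (mem_Psi.1 sP).2]; ring, by rw [inner_zero_right, inner_zero_right, s1]; ring, ?_⟩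
      rw [zero_sub]
      exact H.nrs.toRS.neg_mem (mem_Psi.1 sP).1
    · have h3 := H.s_pair hL s2 s2' hss
      rw [s1, s1', h3, (mem_Psi.1 sP).2]
      refine ⟨by ring, by ring, ?_⟩
      exact (mem_Psi.1 (H.nrs.sub_Psi sP' sP (by rw [real_inner_comm]; exact h3))).1

/-- all neighbours short, no long roots: the weights are a simplex -/
theorem typeS (hL : L4 Φ a = ∅) {b : E} (hb : b ∈ W1 Φ a x) (h3 : 3 ≤ X.card) : TypeS Φ X := by
  classical
  have hm0 : (0 : ℝ) < X.card := by
    have : 0 < X.card := by omega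
    exact_mod_cast this
  -- the norm
  have hN : (inner ℝ x x : ℝ) = 1 - 1 / (X.card : ℝ) := by
    have h1 := sum_zero2 H.nrs.toRS H.sat
    have h2 : (inner ℝ (∑ z ∈ X, z) x : ℝ) = 0 := by rw [h1, inner_zero_left]
    rw [sum_inner, ← Finset.add_sum_erase X _ H.x_mem] at h2
    have h4 : ∑ z ∈ X.erase x, (inner ℝ z x : ℝ) = ∑ z ∈ X.erase x, ((inner ℝ x x : ℝ) - 1) :=
      Finset.sum_congr rfl fun z hz => by
        have h5 := Finset.mem_erase.1 hz
        rw [real_inner_comm]
        exact (H.diff hL hb H.x_mem h5.2 (Ne.symm h5.1)).2.1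
    rw [h4, Finset.sum_const, Finset.card_erase_of_mem H.x_mem, nsmul_eq_mul, Nat.cast_sub (by omega), Nat.cast_one]
      at h2
    field_simp
    linarith
  have hne' : ∀ z ∈ X, (inner ℝ z z : ℝ) = inner ℝ x x := by
    intro z hz
    by_cases hzx : z = x
    · rw [hzx]
    · exact (H.diff hL hb hz H.x_mem hzx).1
  set e := X.equivFin.symm with he
  have hmem : ∀ i, ((e i : X) : E) ∈ X := fun i => (e i).2
  have hsur : ∀ z ∈ X, ∃ i, z = ((e i : X) : E) := fun z hz => ⟨e.symm ⟨z, hz⟩, by simp⟩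
  have hinj : ∀ i j, i ≠ j → ((e i : X) : E) ≠ ((e j : X) : E) := fun i j hij h => hij (e.injective (Subtype.ext h))
  refine ⟨X.card, fun i => ((e i : X) : E), 1, h3, one_pos, ?_, ?_, ?_⟩
  · intro i j
    by_cases hij : i = j
    · subst hij
      rw [if_pos rfl, hne' _ (hmem i), hN]
      ring
    · rw [if_neg hij, (H.diff hL hb (hmem i) (hmem j) (hinj i j hij)).2.1, hN]
      ring
  · intro y
    constructor
    · intro hy
      obtain ⟨u, hu, huy⟩ := exists_pos2 H.nrs.toRS H.sat ⟨x, H.x_mem, fun h0 => by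
        have h4 := H.hk
        have h5 := H.k0
        rw [h0, inner_zero_left] at h4
        linarith⟩ hy
      obtain ⟨m, hm⟩ := H.sat.int y hy u hu
      have h1 : (0 : ℝ) < co y u := by
        have := H.nrs.toRS.inner_pos hy
        unfold co
        positivity
      rw [hm] at h1
      have h2 : (0 : ℤ) < m := by exact_mod_cast h1
      have h4 : (1 : ℝ) ≤ m := by exact_mod_cast h2
      have h5 := H.sat.str y hy u hu 1 (by rw [hm, Nat.cast_one]; exact h4)
      rw [Nat.cast_one, one_smul] at h5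
      obtain ⟨i, hi⟩ := hsur u hu
      obtain ⟨j, hj⟩ := hsur _ h5
      refine ⟨i, j, ?_, ?_⟩
      · rintro rfl
        rw [← hi] at hj
        have h6 : y = 0 := by
          have : u - y + y = u + y := by rw [hj]
          rw [sub_add_cancel] at this
          exact left_eq_add.1 this
        exact H.nrs.ne_zero y hy h6
      · simp only
        rw [← hi, ← hj]
        abel
    · rintro ⟨i, j, hij, rfl⟩
      exact (H.diff hL hb (hmem i) (hmem j) (hinj i j hij)).2.2
  · intro y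
    exact ⟨fun hy => hsur y hy, by rintro ⟨i, rfl⟩; exact hmem i⟩

/-- **Assembly**, normalised roots, no roots of square length six -/
theorem main (hp : p.Prime) (h7 : 7 < p) : TypeA Φ ∨ TypeS Φ X ∨ TypeB Φ X := by
  obtain ⟨e1, e2, e3, e4, e5⟩ := H.eqs
  have hodd : ¬ Even X.card := by
    rw [e1]
    intro h
    have := hp.eq_two_or_odd'
    rcases this with h2 | h2
    · omega
    · exact (Nat.not_even_iff_odd.2 h2) h
  rcases (L4 Φ a).eq_empty_or_nonempty with hL | ⟨b4, hb4⟩
  · rcases (W1 Φ a x).eq_empty_or_nonempty with hW | ⟨b, hb⟩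
    · left
      rw [hW, Finset.card_empty, mul_zero, Finset.card_eq_zero] at e3
      exact H.typeA e3 hL
    · exact Or.inr (Or.inl (H.typeS hL hb (by omega)))
  · have hk : k ≠ 1 := fun hk => hodd (H.even_card hk hb4)
    rcases (W1 Φ a x).eq_empty_or_nonempty with hW | ⟨b, hb⟩
    · right; right
      rw [hW, Finset.card_empty, mul_zero, Finset.card_eq_zero] at e3
      have := H.k_pos
      exact H.typeB e3 (by omega) hb4
    · exact absurd (H.of_W1 hb).1 hk

end Cf

/-- Gabber's theorem, normalised roots -/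
theorem nrs_prime2 (h : NRS Φ) (hX : Sat' Φ X) (hne : ∃ x ∈ X, x ≠ 0) {p : ℕ} (hp : p.Prime) (h7 : 7 < p)
    (hc : X.card ≤ p) {a x : E} (ha : a ∈ Φ) (hx : x ∈ X) (hb : (p : ℝ) ≤ co a x + qs Φ a) :
    TypeA Φ ∨ TypeS Φ X ∨ TypeB Φ X := by
  classical
  have h7R : (8 : ℝ) ≤ p := by exact_mod_cast h7
  have hcR : (X.card : ℝ) ≤ p := by exact_mod_cast hc
  obtain ⟨g, hg, hb⟩ := to_short2 h ha hb
  obtain ⟨u, hu, hug⟩ := exists_pos2 h.toRS hX hne (mem_Psi.1 hg).1
  by_cases h6 : ∃ b ∈ Φ, inner ℝ b b = (6 : ℝ)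
  · -- ratio three
    exfalso
    obtain ⟨b, hb', h6⟩ := h6
    obtain ⟨q, hq, hmax⟩ := Finset.exists_max_image (X ×ˢ Psi Φ) (fun q => (inner ℝ q.1 q.2 : ℝ))
      ⟨(u, g), Finset.mem_product.2 ⟨hu, hg⟩⟩
    rw [Finset.mem_product] at hq
    have hmax' : ∀ y ∈ X, ∀ d ∈ Psi Φ, inner ℝ y d ≤ (inner ℝ q.1 q.2 : ℝ) := fun y hy d hd =>
      hmax (y, d) (Finset.mem_product.2 ⟨hy, hd⟩)
    obtain ⟨-, g', hg', hn⟩ := h.nb_six hb' h6
    have hn2 : (Nb Φ q.2).Nonempty := by
      rw [← Finset.card_pos, h.card_Nb' hg' hq.2, Finset.card_pos]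
      exact hn
    obtain ⟨d, hd⟩ := hn2
    rw [mem_Nb] at hd
    have hgd : inner ℝ q.2 d = (1 : ℝ) := by rw [real_inner_comm]; exact hd.2
    have h1 := card_B4 (X := X) (Ψ := Psi Φ) (fun a ha y hy => by
        obtain ⟨k, hk⟩ := hX.int a (mem_Psi.1 ha).1 y hy
        exact ⟨k, by rw [← hk, co_Psi ha]⟩)
      (fun a ha y hy j hj => hX.str a (mem_Psi.1 ha).1 y hy j (by rw [co_Psi ha]; exact hj)) hmax' hq.1 hd.1
      (h.sub_Psi hq.2 hd.1 hgd) rfl (mem_Psi.1 hq.2).2 (mem_Psi.1 hd.1).2 hgd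
    have h2 := h.qs_le_six hb' h6 (mem_Psi.1 hg).1
    have h3 := hmax' x hx g hg
    rw [co_Psi hg] at hb
    nlinarith
  · push Not at h6
    -- a weight with a positive pairing
    obtain ⟨y, hy, k, hk1, hk, hle⟩ : ∃ y ∈ X, ∃ k : ℕ, 1 ≤ k ∧ (inner ℝ y g : ℝ) = k ∧ (p : ℝ) ≤ k + qs Φ g := by
      have hnat : ∀ y ∈ X, (0 : ℝ) < inner ℝ y g → ∃ k : ℕ, 1 ≤ k ∧ (inner ℝ y g : ℝ) = k := by
        intro y hy h0
        obtain ⟨m, hm⟩ := hX.int g (mem_Psi.1 hg).1 y hy
        rw [co_Psi hg] at hm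
        rw [hm] at h0
        have h1 : (0 : ℤ) < m := by exact_mod_cast h0
        obtain ⟨k, rfl⟩ := Int.eq_ofNat_of_zero_le h1.le
        exact ⟨k, by omega, by rw [hm]; norm_cast⟩
      rw [co_Psi hg] at hb
      rcases lt_or_ge (0 : ℝ) (inner ℝ x g : ℝ) with h0 | h0
      · obtain ⟨k, hk1, hk⟩ := hnat x hx h0
        exact ⟨x, hx, k, hk1, hk, by rw [← hk]; exact hb⟩
      · obtain ⟨k, hk1, hk⟩ := hnat u hu hug
        refine ⟨u, hu, k, hk1, hk, ?_⟩
        have : (0 : ℝ) ≤ k := Nat.cast_nonneg k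
        linarith
    exact (⟨h, hX, h6, hg, hy, hk1, hk, hc, hle⟩ : Cf Φ X g y k p).main hp h7

/-- **Gabber's theorem** in terms of root systems and sets of weights. -/
theorem prime_comb2 (h : RS Φ) (hX : Sat' Φ X) (hne : ∃ x ∈ X, x ≠ 0) {p : ℕ} (hp : p.Prime) (h7 : 7 < p)
    (hc : X.card ≤ p) {a x : E} (ha : a ∈ Φ) (hx : x ∈ X) (hb : (p : ℝ) ≤ co a x + qs Φ a) :
    TypeA Φ ∨ TypeS Φ X ∨ TypeB Φ X := by
  obtain ⟨m, hm, hmin⟩ := Finset.exists_min_image Φ (fun x => (inner ℝ x x : ℝ)) h.nonempty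
  have hm0 : (0 : ℝ) < inner ℝ m m := real_inner_self_pos.2 (h.ne_zero m hm)
  set c : ℝ := Real.sqrt (2 / inner ℝ m m) with hcdef
  have hc' : 0 < c := Real.sqrt_pos.2 (by positivity)
  have hcc : c * c = 2 / inner ℝ m m := Real.mul_self_sqrt (by positivity)
  have hN : NRS (PF.sc c Φ) := by
    refine ⟨h.sc hc', ?_, c • m, (smul_mem_sc hc').2 hm, ?_⟩
    · intro a ha
      obtain ⟨a', ha', rfl⟩ := mem_sc.1 ha
      rw [inner_smul_left, inner_smul_right]
      simp only [conj_trivial]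
      rw [← mul_assoc, hcc, div_mul_eq_mul_div, le_div_iff₀ hm0]
      have := hmin a' ha'
      linarith
    · rw [inner_smul_left, inner_smul_right]
      simp only [conj_trivial]
      rw [← mul_assoc, hcc]
      field_simp
  have h1 := nrs_prime2 hN (sat_sc3 hc' hX) (by
      obtain ⟨x, hx, hx0⟩ := hne
      exact ⟨c • x, (smul_mem_sc hc').2 hx, smul_ne_zero hc'.ne' hx0⟩) hp h7 (by rw [card_sc hc']; exact hc)
    ((smul_mem_sc hc').2 ha) ((smul_mem_sc hc').2 hx) (by rw [co_sc hc', qs_sc hc']; exact hb)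
  rcases h1 with h1 | h1 | h1
  · exact Or.inl (h1.of_sc hc')
  · exact Or.inr (Or.inl (typeS_of_sc3 hc' h1))
  · exact Or.inr (Or.inr (h1.of_sc hc'))

end AT
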