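import Pool.Agent.Helper81.AT.FullAt
import Pool.Agent.Helper99.PG.Num

/-!
Project AT (MP_b8862a_ag): rank one and dimension three.
-/

set_option linter.unusedSectionVars false

open Module LieModule LieAlgebra LieAlgebra.IsKilling AddMonoidAlgebra MTP.MF PF PF.W PF.L TF PW PX

namespace AT

variable {K L : Type*} [Field K] [CharZero K] [IsAlgClosed K] [LieRing L] [LieAlgebra K L] [FiniteDimensional K L]
  [IsKilling K L] [IsSimple K L] {H : LieSubalgebra K L} [H.IsCartanSubalgebra]

theorem exists_neg2 (α : H.root) : ∃ β : H.root, PF.C.rt β = -PF.C.rt α ∧ β ≠ α := by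
  have h1 : PF.C.rt ((rootSystem H).reflectionPerm α α) = -PF.C.rt α := by
    show (rootSystem H).root _ = _
    rw [RootPairing.root_reflectionPerm]
    exact RootPairing.reflection_apply_self _ _
  refine ⟨_, h1, fun h2 => ?_⟩
  rw [h2] at h1
  have h3 : PF.C.rt α ≠ 0 := (rootSystem H).ne_zero α
  apply h3
  have h4 : (2 : K) • PF.C.rt α = 0 := by
    rw [two_smul]
    nth_rewrite 1 [h1]
    exact neg_add_cancel _
  exact (smul_eq_zero.1 h4).resolve_left two_ne_zero

theorem typeA_of_finrank2 (hne : Nonempty H.root) (h3 : finrank K L ≤ 3) : TypeA (PF.C.PhiS H) := by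
  classical
  obtain ⟨α⟩ := hne
  have h1 := PG.L.finrank_eq_root_card (K := K) (L := L) H
  have hH : 0 < finrank K H := by
    rw [finrank_pos_iff]
    by_contra hcon
    rw [not_nontrivial_iff_subsingleton] at hcon
    apply (rootSystem H).ne_zero α
    ext x
    rw [Subsingleton.elim x 0, map_zero, map_zero]
  have h2 : Fintype.card H.root ≤ 2 := by omega
  obtain ⟨β, hβ, hne⟩ := exists_neg2 α
  have hall : ∀ γ : H.root, γ = α ∨ γ = β := by
    intro γ
    by_contra hcon
    push Not at hcon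
    have h4 : ({γ, α, β} : Finset H.root).card = 3 := by
      rw [Finset.card_eq_three]
      exact ⟨γ, α, β, hcon.1, hcon.2, hne.symm, rfl⟩
    have h5 := Finset.card_le_univ ({γ, α, β} : Finset H.root)
    omega
  refine ⟨PF.C.toE (PF.C.rt α), fun y => ?_⟩
  rw [PF.C.mem_PhiS]
  constructor
  · rintro ⟨γ, rfl⟩
    rcases hall γ with rfl | rfl
    · exact Or.inl rfl
    · right
      rw [hβ, PF.C.toE_neg (PF.C.intl_rt α)]
  · rintro (rfl | rfl)
    · exact ⟨α, rfl⟩
    · exact ⟨β, by rw [hβ, PF.C.toE_neg (PF.C.intl_rt α)]⟩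

theorem finrank_of_typeA2 {V I : Type*} [AddCommGroup V] [Module K V] [LieRingModule L V] [LieModule K L V]
    [FiniteDimensional K V] [Fintype I] (B : WB (V := V) H I) [Nonempty I]
    (hirr : ∀ W : Submodule K V, (∀ x : L, ∀ u ∈ W, ⁅x, u⁆ ∈ W) → W = ⊥ ∨ W = ⊤) (hA : TypeA (PF.C.PhiS H)) :
    finrank K L ≤ 3 := by
  classical
  obtain ⟨α, hα, hline, -⟩ := PF.C.typeA B hirr hA
  have h1 := PG.L.finrank_eq_root_card (K := K) (L := L) H
  have h2 : finrank K H ≤ 1 := finrank_le_one (coroot α.1) fun h => by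
    obtain ⟨c, hc⟩ := hline h
    exact ⟨c, hc.symm⟩
  obtain ⟨β, hβ, hne⟩ := exists_neg2 α
  have h3 : Fintype.card H.root ≤ 2 := by
    have h4 : (Finset.univ : Finset H.root) ⊆ {α, β} := by
      intro γ _
      rw [Finset.mem_insert, Finset.mem_singleton]
      rcases hα γ with h5 | h5
      · exact Or.inl (PF.C.rt_inj h5)
      · exact Or.inr (PF.C.rt_inj (h5.trans hβ.symm))
    exact (Finset.card_le_card h4).trans Finset.card_le_two
  omega

end AT
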