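import Pool.Agent.Helper2.PN.Count

/-!
Project AT (MP_b8862a_ag), primes: the equality case of the count.
-/

set_option linter.unusedSectionVars false

open scoped RealInnerProductSpace
open Module PF TF PW

namespace AT

variable {E : Type*} [NormedAddCommGroup E] [InnerProductSpace ℝ E] {Φ X : Finset E}

theorem even_of_invol2 {s : Finset E} (f : E → E) (hf : ∀ y ∈ s, f y ∈ s) (hff : ∀ y ∈ s, f (f y) = y)
    (hne : ∀ y ∈ s, f y ≠ y) : Even s.card := by
  have h1 : ∑ _y ∈ s, (1 : ZMod 2) = 0 := by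
    refine Finset.sum_involution (fun y _ => f y) (fun y _ => by decide) (fun y hy _ => hne y hy)
      (fun y hy => hf y hy) (fun y hy => hff y hy)
  rw [Finset.sum_const, nsmul_eq_mul, mul_one] at h1
  exact (ZMod.natCast_eq_zero_iff_even).1 h1

namespace Cf

variable {a x : E} {k p : ℕ} (H : Cf Φ X a x k p)
include H

theorem L6_empty : L6 Φ a = ∅ := by
  rw [Finset.eq_empty_iff_forall_notMem]
  intro b hb
  rw [mem_L6] at hb
  exact H.no6 b hb.1 hb.2.1

theorem k0 : (1 : ℝ) ≤ k := by exact_mod_cast H.k_pos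

theorem nb_sub {b : E} (hb : b ∈ Nb Φ a) : a - b ∈ Nb Φ a := by
  rw [mem_Nb] at hb ⊢
  have h1 := H.a2
  refine ⟨H.nrs.sub_Psi H.a_mem hb.1 (by rw [real_inner_comm]; exact hb.2), ?_⟩
  rw [inner_sub_left, H.a2, hb.2]
  norm_num

theorem nb_cover [DecidableEq E] : Nb Φ a ⊆ W1 Φ a x ∪ (W1 Φ a x).image (fun y => a - y) := by
  intro b hb
  have hk := H.k0
  rw [Finset.mem_union, Finset.mem_image]
  rcases lt_or_ge (0 : ℝ) (inner ℝ x b : ℝ) with h1 | h1
  · exact Or.inl (mem_W1.2 ⟨hb, h1⟩)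
  · refine Or.inr ⟨a - b, mem_W1.2 ⟨H.nb_sub hb, ?_⟩, sub_sub_cancel a b⟩
    rw [inner_sub_right, H.hk]
    linarith

theorem L4_cover [DecidableEq E] : L4 Φ a ⊆ W2 Φ a x ∪ (W0 Φ a x).image (fun y => a - y) := by
  intro b hb
  have hk := H.k0
  rw [Finset.mem_union, Finset.mem_image]
  rcases lt_or_ge (0 : ℝ) (inner ℝ x b : ℝ) with h1 | h1
  · exact Or.inl (mem_W2.2 ⟨hb, h1⟩)
  · refine Or.inr ⟨a - b, mem_W0.2 ⟨?_, ?_⟩, sub_sub_cancel a b⟩
    · have h2 := H.nrs.L4_star H.a_mem hb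
      have h3 : a - b + a = a + a - b := by abel
      rw [h3]
      exact h2
    · rw [inner_sub_right, H.hk]
      linarith

theorem card_nb : (Nb Φ a).card ≤ 2 * (W1 Φ a x).card := by
  classical
  have h1 := Finset.card_le_card H.nb_cover
  have h2 := Finset.card_union_le (W1 Φ a x) ((W1 Φ a x).image (fun y => a - y))
  have h3 := Finset.card_image_le (s := W1 Φ a x) (f := fun y => a - y)
  omega

theorem card_nb' {b : E} (hb : b ∈ W1 Φ a x) (hb' : a - b ∈ W1 Φ a x) : (Nb Φ a).card + 1 ≤ 2 * (W1 Φ a x).card := by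
  classical
  have h1 : Nb Φ a ⊆ W1 Φ a x ∪ ((W1 Φ a x).erase b).image (fun y => a - y) := by
    intro c hc
    have h2 := H.nb_cover hc
    rw [Finset.mem_union, Finset.mem_image] at h2 ⊢
    rcases h2 with h2 | ⟨y, hy, rfl⟩
    · exact Or.inl h2
    · by_cases hyb : y = b
      · left
        rw [hyb]
        exact hb'
      · exact Or.inr ⟨y, Finset.mem_erase.2 ⟨hyb, hy⟩, rfl⟩
  have h1 := Finset.card_le_card h1
  have h2 := Finset.card_union_le (W1 Φ a x) (((W1 Φ a x).erase b).image (fun y => a - y))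
  have h3 := Finset.card_image_le (s := (W1 Φ a x).erase b) (f := fun y => a - y)
  rw [Finset.card_erase_of_mem hb] at h3
  have h4 := Finset.card_pos.2 ⟨b, hb⟩
  omega

theorem card_L4 : (L4 Φ a).card ≤ (W2 Φ a x).card + (W0 Φ a x).card := by
  classical
  have h1 := Finset.card_le_card H.L4_cover
  have h2 := Finset.card_union_le (W2 Φ a x) ((W0 Φ a x).image (fun y => a - y))
  have h3 := Finset.card_image_le (s := W0 Φ a x) (f := fun y => a - y)
  omega

theorem card_L4' {b : E} (hb : b ∈ W0 Φ a x) (hb' : a - b ∈ W2 Φ a x) :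
    (L4 Φ a).card + 1 ≤ (W2 Φ a x).card + (W0 Φ a x).card := by
  classical
  have h1 : L4 Φ a ⊆ W2 Φ a x ∪ ((W0 Φ a x).erase b).image (fun y => a - y) := by
    intro c hc
    have h2 := H.L4_cover hc
    rw [Finset.mem_union, Finset.mem_image] at h2 ⊢
    rcases h2 with h2 | ⟨y, hy, rfl⟩
    · exact Or.inl h2
    · by_cases hyb : y = b
      · left
        rw [hyb]
        exact hb'
      · exact Or.inr ⟨y, Finset.mem_erase.2 ⟨hyb, hy⟩, rfl⟩
  have h1 := Finset.card_le_card h1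
  have h2 := Finset.card_union_le (W2 Φ a x) (((W0 Φ a x).erase b).image (fun y => a - y))
  have h3 := Finset.card_image_le (s := (W0 Φ a x).erase b) (f := fun y => a - y)
  rw [Finset.card_erase_of_mem hb] at h3
  have h4 := Finset.card_pos.2 ⟨b, hb⟩
  omega

theorem p_le : 2 * p ≤ 2 * k + 2 + (Nb Φ a).card + 2 * (L4 Φ a).card := by
  have h1 := H.nrs.qs_short H.a_mem
  have h2 := H.le_p
  rw [H.L6_empty, Finset.card_empty] at h1
  push_cast at h1
  have h3 : (2 : ℝ) * p ≤ 2 * k + 2 + (Nb Φ a).card + 2 * (L4 Φ a).card := by linarith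
  exact_mod_cast h3

theorem card_Ls_le : (Ls Φ a x k).card ≤ X.card := Finset.card_le_card H.Ls_sub

theorem eqs : X.card = p ∧ X = Ls Φ a x k ∧ (Nb Φ a).card = 2 * (W1 Φ a x).card ∧
    (L4 Φ a).card = (W2 Φ a x).card + (W0 Φ a x).card ∧ p = k + 1 + ((W1 Φ a x).card + (L4 Φ a).card) := by
  have h1 := H.card_nb
  have h2 := H.card_L4
  have h3 := H.p_le
  have h4 := H.card_Ls
  have h5 := H.card_Ls_le
  have h6 := H.card_le
  refine ⟨by omega, (Finset.eq_of_subset_of_card_le H.Ls_sub (by omega)).symm, by omega, by omega, by omega⟩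

/-- exactly one of the neighbours `b`, `a - b` -/
theorem pair1 {b : E} (hb : b ∈ W1 Φ a x) : (inner ℝ x (a - b) : ℝ) ≤ 0 := by
  by_contra h0
  push Not at h0
  have h1 := H.card_nb' hb (mem_W1.2 ⟨H.nb_sub (mem_W1.1 hb).1, h0⟩)
  have h2 := H.eqs.2.2.1
  omega

theorem pair2 {c : E} (hc : c ∈ W0 Φ a x) : (inner ℝ x (a - c) : ℝ) ≤ 0 := by
  by_contra h0
  push Not at h0
  have h1 := H.nrs.L4_star H.a_mem (mem_W0.1 hc).1
  have h2 : a + a - (c + a) = a - c := by abel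
  rw [h2] at h1
  have h3 := H.card_L4' hc (mem_W2.2 ⟨h1, h0⟩)
  have h4 := H.eqs.2.2.2.1
  omega

theorem mem_X {z : E} (hz : z ∈ X) : (∃ j : ℕ, j ≤ k ∧ z = x - (j : ℝ) • a) ∨
    ∃ y, (y ∈ W1 Φ a x ∨ y ∈ W2 Φ a x ∨ y ∈ W0 Φ a x) ∧ z = x - y := by
  rw [H.eqs.2.1] at hz
  exact mem_Ls.1 hz

theorem two_notMem {y : E} (hy : y ∈ Φ) (hne : (inner ℝ y a : ℝ) ^ 2 ≠ 2 * inner ℝ y y) : x - (2 : ℝ) • y ∉ X := by
  intro hz
  rcases H.mem_X hz with ⟨j, -, h1⟩ | ⟨y', hy', h1⟩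
  · have h2 : (2 : ℝ) • y = (j : ℝ) • a := sub_right_injective h1
    have h3 : (inner ℝ ((2 : ℝ) • y) a : ℝ) = inner ℝ ((j : ℝ) • a) a := by rw [h2]
    have h4 : (inner ℝ ((2 : ℝ) • y) ((2 : ℝ) • y) : ℝ) = inner ℝ ((j : ℝ) • a) ((j : ℝ) • a) := by rw [h2]
    rw [inner_smul_left, inner_smul_left, H.a2] at h3
    rw [inner_smul_left, inner_smul_left, inner_smul_right, inner_smul_right, H.a2] at h4
    simp only [conj_trivial] at h3 h4
    apply hne
    have h5 : (inner ℝ y a : ℝ) = j := by linarith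
    rw [h5]
    linarith
  · have h2 : (2 : ℝ) • y = y' := sub_right_injective h1
    have h3 := (H.Y_cases hy').1
    rw [← h2] at h3
    rcases H.nrs.red y hy 2 h3 with h4 | h4 <;> norm_num at h4

/-- the values on the short roots of the list are one -/
theorem val_one {y : E} (hy : y ∈ W1 Φ a x ∨ y ∈ W0 Φ a x) : (inner ℝ x y : ℝ) = 1 := by
  have hP : y ∈ Psi Φ ∧ (0 : ℝ) < inner ℝ x y ∧ (inner ℝ y a : ℝ) ^ 2 ≠ 2 * inner ℝ y y := by
    rcases hy with hy | hy
    · obtain ⟨h1, h2⟩ := mem_W1.1 hy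
      obtain ⟨h1, h3⟩ := mem_Nb.1 h1
      refine ⟨h1, h2, ?_⟩
      rw [h3, (mem_Psi.1 h1).2]
      norm_num
    · obtain ⟨h1, h2⟩ := mem_W0.1 hy
      obtain ⟨h1, h3⟩ := H.L4_sub h1
      rw [add_sub_cancel_right] at h1 h3
      refine ⟨h1, h2, ?_⟩
      rw [h3, (mem_Psi.1 h1).2]
      norm_num
  obtain ⟨h1, h2, h3⟩ := hP
  obtain ⟨m, hm⟩ := H.int_short h1 H.x_mem
  rw [hm] at h2 ⊢
  have h4 : (0 : ℤ) < m := by exact_mod_cast h2
  have h5 : ¬ (2 : ℤ) ≤ m := by
    intro h5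
    exact H.two_notMem (mem_Psi.1 h1).1 h3 (H.sub_two_mem h1 (by rw [hm]; exact_mod_cast h5))
  have h6 : m = 1 := by omega
  rw [h6]
  norm_num

theorem of_W1 {b : E} (hb : b ∈ W1 Φ a x) : k = 1 ∧ (inner ℝ x b : ℝ) = 1 ∧ (inner ℝ x (a - b) : ℝ) = 0 := by
  have h1 := H.val_one (Or.inl hb)
  have h2 := H.pair1 hb
  have h3 := H.k0
  rw [inner_sub_right, H.hk, h1] at h2
  have h4 : (k : ℝ) = 1 := by linarith
  refine ⟨by exact_mod_cast h4, h1, ?_⟩
  rw [inner_sub_right, H.hk, h1, h4]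
  norm_num

/-- an odd pairing: some orthogonal root is in the list -/
theorem exists_W0 {b : E} (hb : b ∈ L4 Φ a) (h0 : (inner ℝ x (b - a) : ℝ) ≠ 0) : ∃ c, c ∈ W0 Φ a x := by
  rcases lt_or_gt_of_ne h0 with h1 | h1
  · refine ⟨a - b, mem_W0.2 ⟨?_, ?_⟩⟩
    · have h2 := H.nrs.L4_star H.a_mem hb
      have h3 : a - b + a = a + a - b := by abel
      rw [h3]
      exact h2
    · have h2 : a - b = -(b - a) := by abel
      rw [h2, inner_neg_right]
      linarith
  · exact ⟨b - a, mem_W0.2 ⟨by rwa [sub_add_cancel], h1⟩⟩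

theorem even_L4 : Even (L4 Φ a).card := by
  refine even_of_invol2 (fun b => a + a - b) (fun b hb => H.nrs.L4_star H.a_mem hb) (fun b _ => by abel) ?_
  intro b hb h1
  obtain ⟨h2, h3, h4⟩ := mem_L4.1 hb
  have h5 : a + a = b + b := by
    have h6 : a + a - b + b = b + b := by rw [h1]
    rwa [sub_add_cancel] at h6
  have h6 : (inner ℝ (a + a) a : ℝ) = inner ℝ (b + b) a := by rw [h5]
  have h7 : (inner ℝ (a + a) b : ℝ) = inner ℝ (b + b) b := by rw [h5]
  rw [inner_add_left, inner_add_left, real_inner_comm b a, h3, h4] at h7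
  norm_num at h7

theorem even_card (hk1 : k = 1) {b : E} (hb : b ∈ L4 Φ a) : Even X.card := by
  have hkR : (k : ℝ) = 1 := by rw [hk1]; norm_num
  -- a root in `W0`
  obtain ⟨c, hc⟩ : ∃ c, c ∈ W0 Φ a x := by
    refine H.exists_W0 hb fun h0 => ?_
    obtain ⟨h1, h2, h3⟩ := mem_L4.1 hb
    obtain ⟨m, hm⟩ := H.sat.int b h1 x H.x_mem
    rw [inner_sub_right, H.hk, hkR] at h0
    have h4 : co b x = 1 / 2 := by
      unfold co
      rw [h2]
      linarith
    rw [h4] at hm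
    have h5 : (1 : ℝ) = 2 * m := by linarith
    have h6 : (1 : ℤ) = 2 * m := by exact_mod_cast h5
    omega
  have hxc := H.val_one (Or.inr hc)
  obtain ⟨hg1, hg2, hg3⟩ := mem_L4.1 (mem_W0.1 hc).1
  obtain ⟨hcP, hca⟩ := H.L4_sub (mem_W0.1 hc).1
  rw [add_sub_cancel_right] at hcP hca
  have hW1 : Even (W1 Φ a x).card := by
    have hkey : ∀ b ∈ W1 Φ a x, (inner ℝ (c + a) b : ℝ) = 2 := by
      intro b hb
      obtain ⟨-, h1, h2⟩ := H.of_W1 hb
      obtain ⟨hbP, hba⟩ := mem_Nb.1 (mem_W1.1 hb).1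
      rcases H.nrs.four hg1 hg2 hbP with h3 | h3 | h3
      · exfalso
        rw [inner_add_left, real_inner_comm b a, hba] at h3
        have h4 : (inner ℝ c b : ℝ) = -1 := by linarith
        have h5 := H.nrs.add_Psi hcP hbP h4
        refine H.two_notMem (mem_Psi.1 h5).1 ?_ (H.sub_two_mem h5 ?_)
        · rw [inner_add_left, hca, hba, (mem_Psi.1 h5).2]
          norm_num
        · rw [inner_add_right, hxc, h1]
          norm_num
      · exact h3
      · exfalso
        rw [inner_add_left, real_inner_comm b a, hba] at h3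
        have h4 : (inner ℝ c b : ℝ) = -3 := by linarith
        have h5 := real_inner_self_nonneg (x := c + b)
        rw [inner_add_left, inner_add_right, inner_add_right, real_inner_comm c b, h4, (mem_Psi.1 hcP).2,
          (mem_Psi.1 hbP).2] at h5
        norm_num at h5
    refine even_of_invol2 (fun b => c + a - b) ?_ (fun b _ => by abel) ?_
    · intro b hb
      obtain ⟨-, h1, h2⟩ := H.of_W1 hb
      obtain ⟨hbP, hba⟩ := mem_Nb.1 (mem_W1.1 hb).1
      obtain ⟨h3, h4⟩ := H.nrs.four_sub hg1 hg2 hbP (hkey b hb)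
      refine mem_W1.2 ⟨mem_Nb.2 ⟨h3, ?_⟩, ?_⟩
      · rw [inner_sub_left, inner_add_left, hca, H.a2, hba]
        norm_num
      · rw [inner_sub_right, inner_add_right, hxc, H.hk, h1, hkR]
        norm_num
    · intro b hb h1
      obtain ⟨hbP, hba⟩ := mem_Nb.1 (mem_W1.1 hb).1
      have h5 : c + a = b + b := by
        have h6 : c + a - b + b = b + b := by rw [h1]
        rwa [sub_add_cancel] at h6
      have h6 := hkey b hb
      rw [h5, inner_add_left, (mem_Psi.1 hbP).2] at h6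
      norm_num at h6
  have h1 := H.even_L4
  obtain ⟨e1, -, -, -, e5⟩ := H.eqs
  rw [e1, e5, hk1]
  exact (by decide : Even (1 + 1)).add (hW1.add h1)

end Cf

end AT
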